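import Pool.Agent.Lib.MP_0a5b83_al.Defs

/-!
Laws, verbal subgroups and relatively free groups.
-/

set_option autoImplicit false

namespace Pool.Agent.Lib.MP_0a5b83_al

universe u v

theorem value_mem_verbal {W : Set (FreeGroup ℕ)} {G : Type u} [Group G] {w : FreeGroup ℕ}
    (hw : w ∈ W) (f : ℕ → G) : FreeGroup.lift f w ∈ verbal W G :=
  Subgroup.subset_normalClosure ⟨w, hw, f, rfl⟩

theorem map_lift {G : Type u} {H : Type v} [Group G] [Group H] (θ : G →* H) {α : Type*} (f : α → G)
    (w : FreeGroup α) : θ (FreeGroup.lift f w) = FreeGroup.lift (fun i => θ (f i)) w := by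
  have h : θ.comp (FreeGroup.lift f) = FreeGroup.lift (fun i => θ (f i)) := by
    ext i
    simp
  exact DFunLike.congr_fun h w

theorem map_verbal_le (W : Set (FreeGroup ℕ)) {G : Type u} {H : Type v} [Group G] [Group H]
    (θ : G →* H) : (verbal W G).map θ ≤ verbal W H := by
  rw [Subgroup.map_le_iff_le_comap]
  refine Subgroup.normalClosure_le_normal ?_
  rintro _ ⟨w, hw, f, rfl⟩
  show θ _ ∈ verbal W H
  rw [map_lift]
  exact value_mem_verbal hw _

theorem map_mem_verbal (W : Set (FreeGroup ℕ)) {G : Type u} {H : Type v} [Group G] [Group H]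
    (θ : G →* H) {x : G} (hx : x ∈ verbal W G) : θ x ∈ verbal W H :=
  map_verbal_le W θ (Subgroup.mem_map_of_mem θ hx)

theorem map_verbal_of_surjective (W : Set (FreeGroup ℕ)) {G : Type u} {H : Type v} [Group G]
    [Group H] (θ : G →* H) (hθ : Function.Surjective θ) : (verbal W G).map θ = verbal W H := by
  refine le_antisymm (map_verbal_le W θ) ?_
  have hn : ((verbal W G).map θ).Normal := Subgroup.Normal.map inferInstance θ hθ
  refine Subgroup.normalClosure_le_normal ?_
  rintro _ ⟨w, hw, f, rfl⟩
  choose g hg using fun i => hθ (f i)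
  refine ⟨FreeGroup.lift g w, value_mem_verbal hw g, ?_⟩
  rw [map_lift]
  congr 2
  funext i
  exact hg i

theorem verbal_eq_bot_iff {W : Set (FreeGroup ℕ)} {G : Type u} [Group G] :
    verbal W G = ⊥ ↔ Sat W G := by
  constructor
  · intro h w hw f
    have := value_mem_verbal hw f
    rw [h] at this
    exact Subgroup.mem_bot.mp this
  · intro h
    rw [eq_bot_iff]
    refine Subgroup.normalClosure_le_normal ?_
    rintro _ ⟨w, hw, f, rfl⟩
    exact Subgroup.mem_bot.mpr (h w hw f)

theorem Sat.of_injective {W : Set (FreeGroup ℕ)} {G : Type u} {H : Type v} [Group G] [Group H]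
    (hH : Sat W H) (θ : G →* H) (hθ : Function.Injective θ) : Sat W G := by
  intro w hw f
  apply hθ
  rw [map_lift, map_one]
  exact hH w hw _

theorem Sat.of_surjective {W : Set (FreeGroup ℕ)} {G : Type u} {H : Type v} [Group G] [Group H]
    (hG : Sat W G) (θ : G →* H) (hθ : Function.Surjective θ) : Sat W H := by
  rw [← verbal_eq_bot_iff, ← map_verbal_of_surjective W θ hθ, verbal_eq_bot_iff.mpr hG,
    Subgroup.map_bot]

theorem sat_quotient (W : Set (FreeGroup ℕ)) (G : Type u) [Group G] : Sat W (G ⧸ verbal W G) := by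
  rw [← verbal_eq_bot_iff, ← map_verbal_of_surjective W (QuotientGroup.mk' (verbal W G))
    (QuotientGroup.mk'_surjective _), Subgroup.map_eq_bot_iff, QuotientGroup.ker_mk']

/-- The universal property of the relatively free group. -/
noncomputable def RF.lift {W : Set (FreeGroup ℕ)} {n : ℕ} {G : Type u} [Group G] (hG : Sat W G)
    (f : Fin n → G) : RF W n →* G :=
  QuotientGroup.lift _ (FreeGroup.lift f) (by
    intro x hx
    have h := map_mem_verbal W (FreeGroup.lift f) hx
    rw [verbal_eq_bot_iff.mpr hG] at h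
    exact Subgroup.mem_bot.mp h)

/-- The generators of the relatively free group. -/
def RF.gen (W : Set (FreeGroup ℕ)) {n : ℕ} (i : Fin n) : RF W n :=
  QuotientGroup.mk (FreeGroup.of i)

@[simp] theorem RF.lift_gen {W : Set (FreeGroup ℕ)} {n : ℕ} {G : Type u} [Group G] (hG : Sat W G)
    (f : Fin n → G) (i : Fin n) : RF.lift hG f (RF.gen W i) = f i := by
  simp [RF.lift, RF.gen]

theorem RF.hom_ext {W : Set (FreeGroup ℕ)} {n : ℕ} {G : Type u} [Group G] {a b : RF W n →* G}
    (h : ∀ i, a (RF.gen W i) = b (RF.gen W i)) : a = b := by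
  apply QuotientGroup.monoidHom_ext
  ext i
  exact h i

theorem RF.sat (W : Set (FreeGroup ℕ)) (n : ℕ) : Sat W (RF W n) := sat_quotient W _

theorem RF.closure_gen (W : Set (FreeGroup ℕ)) (n : ℕ) :
    Subgroup.closure (Set.range (RF.gen W : Fin n → RF W n)) = ⊤ := by
  have h : Set.range (RF.gen W : Fin n → RF W n) =
      (QuotientGroup.mk' (verbal W (FreeGroup (Fin n)))) '' Set.range FreeGroup.of := by
    rw [← Set.range_comp]
    rfl
  rw [h, ← MonoidHom.map_closure, FreeGroup.closure_range_of, ← MonoidHom.range_eq_map]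
  exact MonoidHom.range_eq_top.mpr (QuotientGroup.mk'_surjective _)

end Pool.Agent.Lib.MP_0a5b83_al
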