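import Mathlib

/-!
Laws, verbal subgroups, relatively free groups, and the two properties compared in the problem.
-/

set_option autoImplicit false

namespace Pool.Agent.Lib.MP_0a5b83_al

universe u

/-- The group `G` satisfies all the laws `w = 1`, `w ∈ W`. -/
def Sat (W : Set (FreeGroup ℕ)) (G : Type u) [Group G] : Prop :=
  ∀ w ∈ W, ∀ f : ℕ → G, FreeGroup.lift f w = 1

/-- The verbal subgroup of `G` for the set of laws `W`: the normal closure of all values in `G` of
the words `w ∈ W`. -/
def verbal (W : Set (FreeGroup ℕ)) (G : Type u) [Group G] : Subgroup G :=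
  Subgroup.normalClosure {x : G | ∃ w ∈ W, ∃ f : ℕ → G, FreeGroup.lift f w = x}

instance verbal_normal (W : Set (FreeGroup ℕ)) (G : Type u) [Group G] : (verbal W G).Normal :=
  Subgroup.normalClosure_normal

/-- The relatively free group of rank `n` for the laws `W`. -/
abbrev RF (W : Set (FreeGroup ℕ)) (n : ℕ) : Type :=
  FreeGroup (Fin n) ⧸ verbal W (FreeGroup (Fin n))

/-- The relatively free group of rank `n + 1` embeds in the one of rank `n`. -/
def NonRegularAt (W : Set (FreeGroup ℕ)) (n : ℕ) : Prop :=
  ∃ φ : RF W (n + 1) →* RF W n, Function.Injective φ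

/-- `G` embeds in a group which satisfies the laws `W` and is generated by `n` elements. -/
def EmbedsInGenerated (W : Set (FreeGroup ℕ)) (n : ℕ) (G : Type) [Group G] : Prop :=
  ∃ (H : Type) (_ : Group H), Sat W H ∧ (∃ s : Fin n → H, Subgroup.closure (Set.range s) = ⊤) ∧
    ∃ ψ : G →* H, Function.Injective ψ

end Pool.Agent.Lib.MP_0a5b83_al
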