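import Pool.Agent.Lib.MP_0a5b83_al.Lift

/-!
If the relatively free group of rank `n + 1` of a proper variety `V` embeds in the one of rank `n`,
then the same holds for the product varieties `N_c V`.
-/

set_option autoImplicit false

namespace Pool.Agent.Lib.MP_0a5b83_al

theorem finiteIndex_comap {G H : Type} [Group G] [Group H] (f : G →* H) (K : Subgroup H)
    (hK : K.FiniteIndex) : (K.comap f).FiniteIndex := by
  rw [Subgroup.finiteIndex_iff, Subgroup.index_comap]
  have : (K.subgroupOf f.range).FiniteIndex := Subgroup.instFiniteIndex_subgroupOf K f.range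
  exact this.index_ne_zero

/-- There is an embedding of infinite index. -/
theorem exists_infinite_index {W : Set (FreeGroup ℕ)} (hW : Proper W) {n : ℕ}
    (φ : RF W (n + 1) →* RF W n) (hφ : Function.Injective φ) :
    ∃ φ' : RF W (n + 1) →* RF W n, Function.Injective φ' ∧ ¬ φ'.range.FiniteIndex := by
  have hincl : Function.Injective (incl W n) := by
    intro x y hxy
    rw [← retr_incl W n 1 x, ← retr_incl W n 1 y, hxy]
  refine ⟨φ.comp ((incl W n).comp φ), hφ.comp (hincl.comp hφ), ?_⟩
  intro hfi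
  have hle : (φ.comp ((incl W n).comp φ)).range ≤ (incl W n).range.map φ := by
    rintro _ ⟨x, rfl⟩
    exact ⟨incl W n (φ x), ⟨φ x, rfl⟩, rfl⟩
  have h1 : ((incl W n).range.map φ).FiniteIndex := Subgroup.finiteIndex_of_le hle
  have h2 := finiteIndex_comap φ _ h1
  rw [Subgroup.comap_map_eq_self_of_injective hφ] at h2
  exact range_incl_index (infinite_RF hW φ hφ) h2

/-- The rank is at least two. -/
theorem two_le {W : Set (FreeGroup ℕ)} (hW : Proper W) {n : ℕ}
    (φ : RF W (n + 1) →* RF W n) (hφ : Function.Injective φ) : 2 ≤ n := by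
  by_contra hn
  have hinf := infinite_RF hW φ hφ
  have hn' : n = 0 ∨ n = 1 := by omega
  rcases hn' with rfl | rfl
  · have : Finite (RF W 0) := by
      have h1 : Finite (FreeGroup (Fin 0)) := inferInstance
      exact Finite.of_surjective _ (QuotientGroup.mk'_surjective (verbal W (FreeGroup (Fin 0))))
    exact not_finite_iff_infinite.mpr hinf this
  · obtain ⟨φ', hφ', hidx⟩ := exists_infinite_index hW φ hφ
    apply hidx
    -- `RF W 1` is cyclic
    have hcyc : ∀ x : RF W 1, ∃ j : ℤ, x = (RF.gen W (0 : Fin 1)) ^ j := by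
      intro x
      have h1 : x ∈ Subgroup.closure (Set.range (RF.gen W : Fin 1 → RF W 1)) := by
        rw [RF.closure_gen]; trivial
      have h2 : Set.range (RF.gen W : Fin 1 → RF W 1) = {RF.gen W (0 : Fin 1)} := by
        ext y
        constructor
        · rintro ⟨i, rfl⟩
          have : i = 0 := Subsingleton.elim _ _
          rw [this]; rfl
        · rintro rfl
          exact ⟨0, rfl⟩
      rw [h2, Subgroup.mem_closure_singleton] at h1
      obtain ⟨j, hj⟩ := h1
      exact ⟨j, hj.symm⟩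
    set c : RF W 1 := RF.gen W (0 : Fin 1) with hc
    obtain ⟨k, hk⟩ := hcyc (φ' (RF.gen W (0 : Fin 2)))
    have hk0 : k ≠ 0 := by
      rintro rfl
      rw [zpow_zero] at hk
      exact gen_ne_one hW (0 : Fin 2) (hφ' (by rw [hk, map_one]))
    have hmem : ∀ t : ℤ, c ^ (k * t) ∈ φ'.range := by
      intro t
      rw [zpow_mul, ← hk]
      have h1 : φ' (RF.gen W (0 : Fin 2)) ∈ φ'.range := ⟨_, rfl⟩
      exact Subgroup.zpow_mem _ h1 t
    have hsurj : Function.Surjective (fun r : Fin k.natAbs =>
        (QuotientGroup.mk (c ^ (r.1 : ℤ)) : RF W 1 ⧸ φ'.range)) := by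
      intro q
      obtain ⟨x, rfl⟩ := QuotientGroup.mk_surjective q
      obtain ⟨j, rfl⟩ := hcyc x
      have hr0 : 0 ≤ j % k := Int.emod_nonneg j hk0
      have hr1 : j % k < |k| := Int.emod_lt_abs j hk0
      have hr2 : (k.natAbs : ℤ) = |k| := Int.natCast_natAbs k
      refine ⟨⟨(j % k).toNat, by omega⟩, ?_⟩
      rw [QuotientGroup.eq]
      have h1 : ((j % k).toNat : ℤ) = j % k := Int.toNat_of_nonneg hr0
      simp only
      rw [h1, ← zpow_neg, ← zpow_add]
      have h2 : -(j % k) + j = k * (j / k) := by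
        have := Int.emod_add_mul_ediv j k
        linarith
      rw [h2]
      exact hmem _
    have hfin : Finite (RF W 1 ⧸ φ'.range) := Finite.of_surjective _ hsurj
    exact Subgroup.finiteIndex_of_finite_quotient

/-- Every nontrivial law is violated in the free group of rank `n ≥ 2`. -/
theorem verbal_ne_bot {W : Set (FreeGroup ℕ)} (hlaw : ∃ w ∈ W, w ≠ 1) {n : ℕ} (hn : 2 ≤ n) :
    verbal W (FreeGroup (Fin n)) ≠ ⊥ := by
  intro h
  rw [verbal_eq_bot_iff] at h
  obtain ⟨H, hH, s, ψ, hs, hψ⟩ := exists_two_generated (FreeGroup ℕ)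
  have hsurj : Function.Surjective
      (FreeGroup.lift (fun i : Fin n => if i.1 = 0 then s 0 else s 1) : FreeGroup (Fin n) →* H) := by
    rw [← MonoidHom.range_eq_top, eq_top_iff, ← hs, Subgroup.closure_le]
    rintro _ ⟨j, rfl⟩
    fin_cases j
    · exact ⟨FreeGroup.of ⟨0, by omega⟩, by simp⟩
    · exact ⟨FreeGroup.of ⟨1, by omega⟩, by simp⟩
  have h1 : Sat W (FreeGroup ℕ) := (h.of_surjective _ hsurj).of_injective ψ hψ
  obtain ⟨w, hw, hw1⟩ := hlaw
  apply hw1
  have h2 := h1 w hw FreeGroup.of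
  rwa [FreeGroup.lift_of_eq_id] at h2

theorem exists_embedding_lcs {W : Set (FreeGroup ℕ)} (hW : Proper W) {n : ℕ}
    (φ : RF W (n + 1) →* RF W n) (hφ : Function.Injective φ) (c : ℕ) :
    ∃ Φ : (FreeGroup (Fin (n + 1)) ⧸ (verbal W (FreeGroup (Fin (n + 1)))).lowerCentralSeries c) →*
        (FreeGroup (Fin n) ⧸ (verbal W (FreeGroup (Fin n))).lowerCentralSeries c),
      Function.Injective Φ := by
  classical
  obtain ⟨φ', hφ', hidx⟩ := exists_infinite_index hW φ hφ
  have hn : 2 ≤ n := two_le hW φ hφ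
  have hnt : Nontrivial (Fin n) := Fin.nontrivial_iff_two_le.mpr hn
  set N := verbal W (FreeGroup (Fin n)) with hN
  set M := verbal W (FreeGroup (Fin (n + 1))) with hM
  let K : Subgroup (FreeGroup (Fin n)) := φ'.range.comap (QuotientGroup.mk' N)
  have hKidx : ¬ K.FiniteIndex := by
    intro h
    apply hidx
    rw [Subgroup.finiteIndex_iff] at h ⊢
    rwa [Subgroup.index_comap_of_surjective _ (QuotientGroup.mk'_surjective N)] at h
  have hNK : N ≤ K := by
    intro x hx
    have h1 : QuotientGroup.mk' N x = 1 := (QuotientGroup.eq_one_iff x).mpr hx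
    show QuotientGroup.mk' N x ∈ φ'.range
    rw [h1]
    exact Subgroup.one_mem _
  have hKfg : ¬ K.FG := fun h =>
    hKidx (finiteIndex_of_fg K N h inferInstance (verbal_ne_bot hW.law hn) hNK)
  have hfree : IsFreeGroup K := inferInstance
  let Y := IsFreeGroup.Generators K
  let e : K ≃* FreeGroup Y := IsFreeGroup.toFreeGroup K
  have hYinf : Infinite Y := by
    by_contra hcon
    rw [not_infinite_iff_finite] at hcon
    apply hKfg
    rw [← Group.fg_iff_subgroup_fg]
    exact Group.fg_of_surjective (f := e.symm.toMonoidHom) e.symm.surjective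
  -- the projection of `K` onto the relatively free group of rank `n + 1`
  let eφ : RF W (n + 1) ≃* φ'.range := MonoidHom.ofInjective hφ'
  let π0 : K →* RF W (n + 1) := eφ.symm.toMonoidHom.comp
    (((QuotientGroup.mk' N).comp K.subtype).codRestrict φ'.range (fun k => k.2))
  have hπ0 : ∀ k : K, φ' (π0 k) = QuotientGroup.mk' N (k : FreeGroup (Fin n)) := by
    intro k
    have h1 : (eφ (π0 k) : RF W n) = QuotientGroup.mk' N (k : FreeGroup (Fin n)) := by
      simp only [π0, MonoidHom.comp_apply, MulEquiv.coe_toMonoidHom, MulEquiv.apply_symm_apply]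
      rfl
    rw [← h1]
    rfl
  have hπ0surj : Function.Surjective π0 := by
    intro x
    obtain ⟨k, hk⟩ := QuotientGroup.mk'_surjective N (φ' x)
    have hkK : k ∈ K := ⟨x, hk.symm⟩
    refine ⟨⟨k, hkK⟩, hφ' ?_⟩
    rw [hπ0]
    exact hk
  obtain ⟨ρ, u, hρ, hu⟩ := exists_lift (QuotientGroup.mk' M) (QuotientGroup.mk'_surjective M)
    (π0.comp e.symm.toMonoidHom) (hπ0surj.comp e.symm.surjective)
  -- the map of free groups
  let θ0 : FreeGroup (Fin (n + 1)) →* K := e.symm.toMonoidHom.comp (FreeGroup.lift u)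
  let θ : FreeGroup (Fin (n + 1)) →* FreeGroup (Fin n) := K.subtype.comp θ0
  let ρ' : K →* FreeGroup (Fin (n + 1)) := ρ.comp e.toMonoidHom
  have hρθ : ∀ w, ρ' (θ0 w) = w := by
    intro w
    have h1 : ρ'.comp θ0 = MonoidHom.id _ := by
      ext i
      simp [ρ', θ0, hu]
    exact DFunLike.congr_fun h1 w
  have hfwd : M.lowerCentralSeries c ≤ (N.lowerCentralSeries c).comap θ := by
    rw [← Subgroup.map_le_iff_le_comap, Subgroup.map_lowerCentralSeries]
    exact Subgroup.lowerCentralSeries_mono c (map_verbal_le W θ)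
  have hNKmap : (N.subgroupOf K).map K.subtype = N := by
    rw [Subgroup.subgroupOf_map_subtype, inf_eq_left.mpr hNK]
  have hNρ : (N.subgroupOf K).map ρ' ≤ M := by
    rintro _ ⟨k, hk, rfl⟩
    have hk' : (k : FreeGroup (Fin n)) ∈ N := hk
    have h1 : π0 k = 1 := by
      apply hφ'
      rw [hπ0, map_one]
      exact (QuotientGroup.eq_one_iff _).mpr hk'
    have h2 := hρ (e k)
    simp only [MonoidHom.comp_apply, MulEquiv.coe_toMonoidHom, MulEquiv.symm_apply_apply] at h2
    rw [h1] at h2
    exact (QuotientGroup.eq_one_iff _).mp h2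
  have hback : ∀ w, θ w ∈ N.lowerCentralSeries c → w ∈ M.lowerCentralSeries c := by
    intro w hw
    rw [← hNKmap, ← Subgroup.map_lowerCentralSeries] at hw
    obtain ⟨x, hx, hxw⟩ := hw
    have hx' : x = θ0 w := Subtype.ext hxw
    have h1 : ρ' x ∈ ((N.subgroupOf K).lowerCentralSeries c).map ρ' := ⟨x, hx, rfl⟩
    rw [Subgroup.map_lowerCentralSeries] at h1
    have h2 := Subgroup.lowerCentralSeries_mono c hNρ h1
    rwa [hx', hρθ] at h2
  refine ⟨QuotientGroup.map _ _ θ hfwd, ?_⟩
  rw [injective_iff_map_eq_one]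
  intro x
  obtain ⟨w, rfl⟩ := QuotientGroup.mk_surjective x
  intro hx
  rw [QuotientGroup.map_mk, QuotientGroup.eq_one_iff] at hx
  rw [QuotientGroup.eq_one_iff]
  exact hback w hx

end Pool.Agent.Lib.MP_0a5b83_al
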