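import Mathlib

/-!
A finitely generated subgroup of a free group which contains a nontrivial normal subgroup of the
free group has finite index.
-/

set_option autoImplicit false

namespace Pool.Agent.Lib.MP_0a5b83_al

open FreeGroup

variable {α : Type} [DecidableEq α]

/-- The set of suffixes of the reduced word of `x`, as elements of the group. -/
def Suf (x : FreeGroup α) : Set (FreeGroup α) := {y | ∃ L, L <:+ x.toWord ∧ y = FreeGroup.mk L}

theorem self_mem_Suf (x : FreeGroup α) : x ∈ Suf x := ⟨x.toWord, List.suffix_rfl, mk_toWord.symm⟩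

theorem Suf_finite (x : FreeGroup α) : (Suf x).Finite := by
  have h : Suf x = (fun L => FreeGroup.mk L) '' {L | L <:+ x.toWord} := by
    ext y
    constructor
    · rintro ⟨L, hL, rfl⟩
      exact ⟨L, hL, rfl⟩
    · rintro ⟨L, hL, rfl⟩
      exact ⟨L, hL, rfl⟩
  rw [h]
  refine Set.Finite.image _ ?_
  have h2 : {L | L <:+ x.toWord} = {L | L ∈ x.toWord.tails} := by
    ext L
    simp [List.mem_tails]
  rw [h2]
  exact List.finite_toSet _

theorem Suf_letter_mul (a : α × Bool) (x : FreeGroup α) :
    Suf (FreeGroup.mk [a] * x) ⊆ Suf x ∪ {FreeGroup.mk [a] * x} := by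
  rintro y ⟨L, hL, rfl⟩
  have hw : (FreeGroup.mk [a] * x).toWord = reduce (a :: x.toWord) := by
    rw [toWord_mul]
    have h1 : (FreeGroup.mk [a]).toWord = [a] := by
      rw [toWord_mk]; simp [reduce_singleton]
    rw [h1]; rfl
  by_cases hfull : L = (FreeGroup.mk [a] * x).toWord
  · right
    rw [hfull]
    exact mk_toWord
  · left
    refine ⟨L, ?_, rfl⟩
    rw [hw] at hL hfull
    rw [reduce.cons, reduce_toWord] at hL hfull
    rcases hX : x.toWord with _ | ⟨hd, tl⟩
    · rw [hX] at hL hfull
      simp only at hL hfull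
      rcases List.suffix_cons_iff.mp hL with h | h
      · exact absurd h hfull
      · exact h
    · rw [hX] at hL hfull
      simp only at hL hfull
      by_cases hc : a.1 = hd.1 ∧ a.2 = !hd.2
      · rw [if_pos hc] at hL
        exact hL.trans (List.suffix_cons _ _)
      · rw [if_neg hc] at hL hfull
        rcases List.suffix_cons_iff.mp hL with h | h
        · exact absurd h hfull
        · exact h

theorem Suf_list_mul (M : List (α × Bool)) (x : FreeGroup α) :
    Suf (FreeGroup.mk M * x) ⊆ Suf x ∪ {y | ∃ L, L <:+ M ∧ y = FreeGroup.mk L * x} := by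
  induction M with
  | nil =>
    intro y hy
    left
    rwa [← one_eq_mk, one_mul] at hy
  | cons a M ih =>
    have h1 : FreeGroup.mk (a :: M) * x = FreeGroup.mk [a] * (FreeGroup.mk M * x) := by
      rw [← mul_assoc, mul_mk]; rfl
    rw [h1]
    intro y hy
    rcases Suf_letter_mul a _ hy with h | h
    · rcases ih h with h | ⟨L, hL, rfl⟩
      · left; exact h
      · right
        exact ⟨L, hL.trans (List.suffix_cons _ _), rfl⟩
    · right
      refine ⟨a :: M, List.suffix_rfl, ?_⟩
      rw [h1]
      exact h

/-- The suffixes of a product of two elements. -/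
theorem Suf_mul (s x : FreeGroup α) {y : FreeGroup α} (hy : y ∈ Suf (s * x)) :
    y ∈ Suf x ∨ ∃ t ∈ Suf s, y = t * x := by
  have h := Suf_list_mul s.toWord x
  rw [mk_toWord] at h
  rcases h hy with h | ⟨L, hL, rfl⟩
  · left; exact h
  · right; exact ⟨FreeGroup.mk L, ⟨L, hL, rfl⟩, rfl⟩

/-- In a finitely generated subgroup `K` all suffixes of elements of `K` lie in finitely many
cosets `t K`... more exactly in `T * K` with `T` finite. -/
theorem exists_finite_cover (K : Subgroup (FreeGroup α)) (hK : K.FG) :
    ∃ T : Set (FreeGroup α), T.Finite ∧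
      ∀ k ∈ K, ∀ y ∈ Suf k, ∃ t ∈ T, ∃ k' ∈ K, y = t * k' := by
  obtain ⟨S, hS⟩ := hK
  let T : Set (FreeGroup α) := (⋃ s ∈ S, (Suf s ∪ Suf s⁻¹)) ∪ {1}
  have hT : T.Finite := by
    refine Set.Finite.union ?_ (Set.finite_singleton 1)
    exact Set.Finite.biUnion S.finite_toSet (fun s _ => (Suf_finite s).union (Suf_finite s⁻¹))
  refine ⟨T, hT, ?_⟩
  intro k hk
  have hk' : k ∈ Subgroup.closure (S : Set (FreeGroup α)) := by rw [hS]; exact hk
  induction hk' using Subgroup.closure_induction_left with
  | one =>
    rintro y ⟨L, hL, rfl⟩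
    refine ⟨1, Or.inr rfl, 1, K.one_mem, ?_⟩
    rw [toWord_one] at hL
    rw [List.suffix_nil.mp hL, ← one_eq_mk, one_mul]
  | mul_left s hs x hx ih =>
    have hxK : x ∈ K := by rw [← hS]; exact hx
    intro y hy
    rcases Suf_mul s x hy with h | ⟨t, ht, rfl⟩
    · exact ih hxK y h
    · refine ⟨t, Or.inl ?_, x, hxK, rfl⟩
      exact Set.mem_biUnion (Finset.mem_coe.mpr hs) (Or.inl ht)
  | inv_mul_cancel s hs x hx ih =>
    have hxK : x ∈ K := by rw [← hS]; exact hx
    intro y hy
    rcases Suf_mul s⁻¹ x hy with h | ⟨t, ht, rfl⟩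
    · exact ih hxK y h
    · refine ⟨t, Or.inl ?_, x, hxK, rfl⟩
      exact Set.mem_biUnion (Finset.mem_coe.mpr hs) (Or.inr ht)

/-- A nonempty reduced word representing an element of a given nontrivial normal subgroup, both ends
of which are letters of index `i`. -/
theorem exists_word (N : Subgroup (FreeGroup α)) (hN : N.Normal) (hN1 : N ≠ ⊥) (i : α) :
    ∃ U : List (α × Bool), IsReduced U ∧ U ≠ [] ∧ FreeGroup.mk U ∈ N ∧
      (∀ a ∈ U.head?, a.1 = i) ∧ (∀ a ∈ U.getLast?, a.1 = i) := by
  obtain ⟨w, hwN, hw1⟩ : ∃ w : FreeGroup α, w ∈ N ∧ w ≠ 1 := by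
    obtain ⟨w, hw⟩ := Subgroup.ne_bot_iff_exists_ne_one.mp hN1
    exact ⟨w.1, w.2, fun h => hw (Subtype.ext h)⟩
  set W := w.toWord with hW
  have hWne : W ≠ [] := by
    intro h
    exact hw1 (toWord_eq_nil_iff.mp h)
  have hWred : IsReduced W := isReduced_toWord
  obtain ⟨hd, tl, hWcons⟩ := List.exists_cons_of_ne_nil hWne
  have hhead : W.head? = some hd := by rw [hWcons]; rfl
  obtain ⟨la, hla⟩ : ∃ la, W.getLast? = some la := by
    cases h : W.getLast? with
    | none => exact absurd (List.getLast?_eq_none_iff.mp h) hWne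
    | some la => exact ⟨la, rfl⟩
  -- the conjugate by the letter `(i, s)`
  have conj : ∀ s : Bool, ¬ (hd = (i, s)) → ¬ (la = (i, !s)) →
      ∃ U : List (α × Bool), IsReduced U ∧ U ≠ [] ∧ FreeGroup.mk U ∈ N ∧
      (∀ a ∈ U.head?, a.1 = i) ∧ (∀ a ∈ U.getLast?, a.1 = i) := by
    intro s h1 h2
    refine ⟨[(i, !s)] ++ W ++ [(i, s)], ?_, by simp, ?_, ?_, ?_⟩
    · refine IsReduced.append_overlap ?_ ?_ hWne
      · refine List.IsChain.append IsReduced.singleton hWred ?_
        intro a ha b hb
        simp only [List.getLast?_singleton, Option.mem_def, Option.some.injEq] at ha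
        rw [hhead] at hb
        simp only [Option.mem_def, Option.some.injEq] at hb
        subst ha; subst hb
        intro h3
        by_contra h4
        apply h1
        refine Prod.ext h3.symm ?_
        simp only at h4 ⊢
        cases s <;> cases hhd : hd.2 <;> simp_all
      · refine List.IsChain.append hWred IsReduced.singleton ?_
        intro a ha b hb
        simp only [List.head?_cons, Option.mem_def, Option.some.injEq] at hb
        rw [hla] at ha
        simp only [Option.mem_def, Option.some.injEq] at ha
        subst ha; subst hb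
        intro h3
        by_contra h4
        apply h2
        refine Prod.ext h3 ?_
        simp only at h4 ⊢
        cases s <;> cases hhd : la.2 <;> simp_all
    · have h3 : FreeGroup.mk ([(i, !s)] ++ W ++ [(i, s)]) =
          (FreeGroup.mk [(i, s)])⁻¹ * w * ((FreeGroup.mk [(i, s)])⁻¹)⁻¹ := by
        rw [← mul_mk, ← mul_mk, mk_toWord, inv_inv, inv_mk]
        simp [invRev]
      rw [h3]
      exact hN.conj_mem w hwN _
    · intro a ha
      simp only [List.append_assoc, List.cons_append, List.nil_append, List.head?_cons, Option.mem_def,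
        Option.some.injEq] at ha
      rw [← ha]
    · intro a ha
      simp only [List.getLast?_append, List.getLast?_singleton, Option.some_or, Option.mem_def,
        Option.some.injEq] at ha
      rw [← ha]
  by_cases c1 : hd = (i, true) ∨ la = (i, false)
  · by_cases c2 : hd = (i, false) ∨ la = (i, true)
    · refine ⟨W, hWred, hWne, by rw [mk_toWord]; exact hwN, ?_, ?_⟩
      · intro a ha
        rw [hhead] at ha
        simp only [Option.mem_def, Option.some.injEq] at ha
        subst ha
        rcases c1 with c1 | c1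
        · rw [c1]
        · rcases c2 with c2 | c2
          · rw [c2]
          · rw [c1] at c2; simp at c2
      · intro a ha
        rw [hla] at ha
        simp only [Option.mem_def, Option.some.injEq] at ha
        subst ha
        rcases c1 with c1 | c1
        · rcases c2 with c2 | c2
          · rw [c1] at c2; simp at c2
          · rw [c2]
        · rw [c1]
    · push Not at c2
      exact conj false c2.1 (by simpa using c2.2)
  · push Not at c1
    exact conj true c1.1 (by simpa using c1.2)

theorem exists_suffix [Nontrivial α] (N : Subgroup (FreeGroup α)) (hN : N.Normal) (hN1 : N ≠ ⊥)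
    (g : FreeGroup α) : ∃ k ∈ N, g ∈ Suf k := by
  rcases hG : g.toWord with _ | ⟨a1, G'⟩
  · refine ⟨1, N.one_mem, ?_⟩
    have : g = 1 := toWord_eq_nil_iff.mp hG
    rw [this]
    exact self_mem_Suf 1
  · obtain ⟨i, hi⟩ := exists_ne a1.1
    obtain ⟨U, hU, hUne, hUN, hUh, hUl⟩ := exists_word N hN hN1 i
    have hGred : IsReduced g.toWord := isReduced_toWord
    have hIred : IsReduced (invRev g.toWord) := by
      rw [← toWord_inv]; exact isReduced_toWord
    have hred : IsReduced (invRev g.toWord ++ U ++ g.toWord) := by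
      refine IsReduced.append_overlap ?_ ?_ hUne
      · refine List.IsChain.append hIred hU ?_
        intro a ha b hb h3
        exfalso
        have hb1 := hUh b hb
        rw [hG] at ha
        have : a = (a1.1, !a1.2) := by
          simp only [invRev, List.map_cons, List.reverse_cons, List.getLast?_append,
            List.getLast?_singleton, Option.some_or, Option.mem_def, Option.some.injEq] at ha
          exact ha.symm
        rw [this] at h3
        simp only at h3
        exact hi (hb1.symm.trans h3.symm)
      · refine List.IsChain.append hU hGred ?_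
        intro a ha b hb h3
        exfalso
        have ha1 := hUl a ha
        rw [hG] at hb
        simp only [List.head?_cons, Option.mem_def, Option.some.injEq] at hb
        subst hb
        exact hi (ha1.symm.trans h3)
    refine ⟨g⁻¹ * FreeGroup.mk U * g⁻¹⁻¹, hN.conj_mem _ hUN _, ?_⟩
    refine ⟨g.toWord, ?_, mk_toWord.symm⟩
    have hw : (g⁻¹ * FreeGroup.mk U * g⁻¹⁻¹).toWord = invRev g.toWord ++ U ++ g.toWord := by
      have h1 : g⁻¹ * FreeGroup.mk U * g⁻¹⁻¹ = FreeGroup.mk (invRev g.toWord ++ U ++ g.toWord) := by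
        rw [← mul_mk, ← mul_mk, mk_toWord, inv_inv, ← inv_mk, mk_toWord]
      rw [h1, toWord_mk, hred.reduce_eq]
    rw [hw]
    exact List.suffix_append _ _

/-- A finitely generated subgroup of a free group of rank at least two which contains a nontrivial
normal subgroup has finite index. -/
theorem finiteIndex_of_fg [Nontrivial α] (K N : Subgroup (FreeGroup α)) (hK : K.FG) (hN : N.Normal)
    (hN1 : N ≠ ⊥) (hNK : N ≤ K) : K.FiniteIndex := by
  obtain ⟨T, hT, hcover⟩ := exists_finite_cover K hK
  have hsurj : Function.Surjective (fun t : T => (QuotientGroup.mk (t : FreeGroup α) : FreeGroup α ⧸ K)) := by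
    intro q
    obtain ⟨g, rfl⟩ := QuotientGroup.mk_surjective q
    obtain ⟨k, hk, hgk⟩ := exists_suffix N hN hN1 g
    obtain ⟨t, ht, k', hk', rfl⟩ := hcover k (hNK hk) g hgk
    refine ⟨⟨t, ht⟩, ?_⟩
    rw [QuotientGroup.eq]
    simpa using hk'
  have : Finite T := hT
  have hfin : Finite (FreeGroup α ⧸ K) := Finite.of_surjective _ hsurj
  exact Subgroup.finiteIndex_of_finite_quotient

end Pool.Agent.Lib.MP_0a5b83_al
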