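import Pool.Agent.Lib.MP_0a5b83_al.TwoGen
import Pool.Agent.Lib.MP_0a5b83_al.Tree

/-!
The embedding of relatively free groups passes from a variety `V` to the varieties `N_c V`.
-/

set_option autoImplicit false

namespace Pool.Agent.Lib.MP_0a5b83_al

/-- Every element of a free group lies in the subgroup generated by finitely many generators. -/
theorem exists_support {Y : Type} (x : FreeGroup Y) :
    ∃ s : Set Y, s.Finite ∧ x ∈ Subgroup.closure (FreeGroup.of '' s) := by
  refine FreeGroup.induction_on x ⟨∅, Set.finite_empty, Subgroup.one_mem _⟩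
    (fun y => ⟨{y}, Set.finite_singleton y, Subgroup.subset_closure ⟨y, rfl, rfl⟩⟩) ?_ ?_
  · rintro y ⟨s, hs, h⟩
    exact ⟨s, hs, Subgroup.inv_mem _ h⟩
  · rintro a b ⟨s, hs, h⟩ ⟨t, ht, h'⟩
    refine ⟨s ∪ t, hs.union ht, Subgroup.mul_mem _ ?_ ?_⟩
    · exact Subgroup.closure_mono (Set.image_mono Set.subset_union_left) h
    · exact Subgroup.closure_mono (Set.image_mono Set.subset_union_right) h'

/-- If `Y` is infinite, then a surjection from the free group on `Y` onto a quotient of a free group of
finite rank lifts to a surjection with a section on the generators. -/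
theorem exists_lift {Y : Type} [Infinite Y] {m : ℕ} {Q : Type} [Group Q]
    (q : FreeGroup (Fin m) →* Q) (hq : Function.Surjective q)
    (π : FreeGroup Y →* Q) (hπ : Function.Surjective π) :
    ∃ (ρ : FreeGroup Y →* FreeGroup (Fin m)) (u : Fin m → FreeGroup Y),
      (∀ x, q (ρ x) = π x) ∧ ∀ i, ρ (u i) = FreeGroup.of i := by
  classical
  choose k hk using fun i : Fin m => hπ (q (FreeGroup.of i))
  choose s hs hks using fun i : Fin m => exists_support (k i)
  let Y0 : Set Y := ⋃ i, s i
  have hY0 : Y0.Finite := Set.finite_iUnion hs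
  have hk0 : ∀ i, k i ∈ Subgroup.closure (FreeGroup.of '' Y0) := fun i =>
    Subgroup.closure_mono (Set.image_mono (Set.subset_iUnion s i)) (hks i)
  have hmap : (Subgroup.closure (FreeGroup.of '' Y0)).map π = ⊤ := by
    rw [eq_top_iff]
    have h1 : (⊤ : Subgroup Q) = Subgroup.closure (Set.range fun i => q (FreeGroup.of i)) := by
      have h2 : (Set.range fun i => q (FreeGroup.of i)) = q '' Set.range FreeGroup.of := by
        rw [← Set.range_comp]; rfl
      rw [h2, ← MonoidHom.map_closure, FreeGroup.closure_range_of, ← MonoidHom.range_eq_map]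
      exact (MonoidHom.range_eq_top.mpr hq).symm
    rw [h1, Subgroup.closure_le]
    rintro _ ⟨i, rfl⟩
    exact ⟨k i, hk0 i, hk i⟩
  have hinf : (Y0ᶜ).Infinite := hY0.infinite_compl
  have hinf' : Infinite ↥(Y0ᶜ) := hinf.to_subtype
  let emb : ℕ ↪ ↥(Y0ᶜ) := Infinite.natEmbedding _
  let y : Fin m → Y := fun i => (emb i.1 : Y)
  have hy : Function.Injective y := by
    intro i j hij
    have h1 := emb.injective (Subtype.ext hij)
    exact Fin.ext h1
  have hyY0 : ∀ i, y i ∉ Y0 := fun i => (emb i.1).2
  have ha : ∀ i : Fin m, ∃ a ∈ Subgroup.closure (FreeGroup.of '' Y0),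
      π a = (q (FreeGroup.of i))⁻¹ * π (FreeGroup.of (y i)) := by
    intro i
    have h1 : (q (FreeGroup.of i))⁻¹ * π (FreeGroup.of (y i)) ∈ (⊤ : Subgroup Q) := trivial
    rw [← hmap] at h1
    exact h1
  choose a haY0 haπ using ha
  choose ρ0 hρ0 using fun z : Y => hq (π (FreeGroup.of z))
  let ρ1 : Y → FreeGroup (Fin m) := fun z =>
    if h : ∃ i, y i = z then FreeGroup.of h.choose * FreeGroup.lift ρ0 (a h.choose) else ρ0 z
  have hρ1y : ∀ i, ρ1 (y i) = FreeGroup.of i * FreeGroup.lift ρ0 (a i) := by
    intro i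
    have h : ∃ j, y j = y i := ⟨i, rfl⟩
    have h2 : h.choose = i := hy h.choose_spec
    simp only [ρ1, dif_pos h]
    rw [h2]
  have hρ1Y0 : ∀ z ∈ Y0, ρ1 z = ρ0 z := by
    intro z hz
    have h : ¬ ∃ i, y i = z := by
      rintro ⟨i, rfl⟩
      exact hyY0 i hz
    simp only [ρ1, dif_neg h]
  have hagree : ∀ x ∈ Subgroup.closure (FreeGroup.of '' Y0), FreeGroup.lift ρ1 x = FreeGroup.lift ρ0 x := by
    intro x hx
    refine MonoidHom.eqOn_closure (f := FreeGroup.lift ρ1) (g := FreeGroup.lift ρ0) ?_ hx
    rintro _ ⟨z, hz, rfl⟩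
    simp only [FreeGroup.lift_apply_of]
    exact hρ1Y0 z hz
  have hρ0' : ∀ x, q (FreeGroup.lift ρ0 x) = π x := by
    intro x
    have h : q.comp (FreeGroup.lift ρ0) = π := by
      ext z
      simp [hρ0]
    exact DFunLike.congr_fun h x
  refine ⟨FreeGroup.lift ρ1, fun i => FreeGroup.of (y i) * (a i)⁻¹, ?_, ?_⟩
  · have h : q.comp (FreeGroup.lift ρ1) = π := by
      ext z
      simp only [MonoidHom.comp_apply, FreeGroup.lift_apply_of]
      by_cases hz : ∃ i, y i = z
      · obtain ⟨i, rfl⟩ := hz
        rw [hρ1y, map_mul, hρ0', haπ]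
        group
      · simp only [ρ1, dif_neg hz]
        exact hρ0 z
    intro x
    exact DFunLike.congr_fun h x
  · intro i
    rw [map_mul, map_inv, FreeGroup.lift_apply_of, hρ1y, hagree _ (haY0 i)]
    group

/-- Hypotheses on the variety: a nontrivial law holds, and some nontrivial group lies in it. -/
structure Proper (W : Set (FreeGroup ℕ)) : Prop where
  law : ∃ w ∈ W, w ≠ 1
  group : ∃ (G : Type) (_ : Group G), Sat W G ∧ Nontrivial G

theorem gen_ne_one {W : Set (FreeGroup ℕ)} (hW : Proper W) {m : ℕ} (i : Fin m) : RF.gen W i ≠ 1 := by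
  obtain ⟨G, hG, hsat, hnt⟩ := hW.group
  obtain ⟨g, hg⟩ := exists_ne (1 : G)
  intro h
  apply hg
  have h1 : RF.lift hsat (fun _ : Fin m => g) (RF.gen W i) = g := RF.lift_gen hsat _ i
  rw [← h1, h, map_one]

/-- The standard inclusion of relatively free groups. -/
noncomputable def incl (W : Set (FreeGroup ℕ)) (n : ℕ) : RF W n →* RF W (n + 1) :=
  RF.lift (RF.sat W (n + 1)) (fun i => RF.gen W (Fin.castSucc i))

/-- The retraction sending the last generator to `h`. -/
noncomputable def retr (W : Set (FreeGroup ℕ)) (n : ℕ) (h : RF W n) : RF W (n + 1) →* RF W n :=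
  RF.lift (RF.sat W n) (Fin.lastCases h (fun i => RF.gen W i))

theorem retr_incl (W : Set (FreeGroup ℕ)) (n : ℕ) (h : RF W n) (x : RF W n) :
    retr W n h (incl W n x) = x := by
  have h1 : (retr W n h).comp (incl W n) = MonoidHom.id _ := by
    apply RF.hom_ext
    intro i
    simp [retr, incl]
  exact DFunLike.congr_fun h1 x

theorem retr_last (W : Set (FreeGroup ℕ)) (n : ℕ) (h : RF W n) :
    retr W n h (RF.gen W (Fin.last n)) = h := by
  simp [retr]

theorem retr_surjective (W : Set (FreeGroup ℕ)) (n : ℕ) (h : RF W n) :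
    Function.Surjective (retr W n h) := fun x => ⟨incl W n x, retr_incl W n h x⟩

theorem infinite_RF {W : Set (FreeGroup ℕ)} (hW : Proper W) {n : ℕ} (φ : RF W (n + 1) →* RF W n)
    (hφ : Function.Injective φ) : Infinite (RF W n) := by
  by_contra hcon
  rw [not_infinite_iff_finite] at hcon
  have hfin : Finite (RF W (n + 1)) := Finite.of_injective φ hφ
  have hcard : Nat.card (RF W (n + 1)) ≤ Nat.card (RF W n) := Nat.card_le_card_of_injective φ hφ
  have hbij := Function.Surjective.bijective_of_nat_card_le (retr_surjective W n 1) hcard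
  have h1 : RF.gen W (Fin.last n) = 1 := by
    apply hbij.1
    rw [retr_last, map_one]
  exact gen_ne_one hW _ h1

instance RF_fg (W : Set (FreeGroup ℕ)) (n : ℕ) : Group.FG (RF W n) :=
  Group.fg_of_surjective (QuotientGroup.mk'_surjective (verbal W (FreeGroup (Fin n))))

theorem pow_eq_one_of_gen {W : Set (FreeGroup ℕ)} {n m : ℕ}
    (h : (RF.gen W (Fin.last n)) ^ m = 1) {G : Type} [Group G] (hG : Sat W G) (g : G) :
    g ^ m = 1 := by
  have h1 : RF.lift hG (fun _ : Fin (n + 1) => g) (RF.gen W (Fin.last n)) = g := RF.lift_gen hG _ _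
  rw [← h1, ← map_pow, h, map_one]

theorem finite_of_comm_fg_torsion {Z : Type} [Group Z] [hfg : Group.FG Z] (hc : ∀ a b : Z, a * b = b * a)
    (ht : ∀ z : Z, IsOfFinOrder z) : Finite Z := by
  letI : CommGroup Z := { (inferInstance : Group Z) with mul_comm := hc }
  exact CommGroup.finite_of_fg_isMulTorsion Z ht

/-- The standard copy of `RF W n` in `RF W (n + 1)` has infinite index. -/
theorem range_incl_index {W : Set (FreeGroup ℕ)} {n : ℕ} (hinf : Infinite (RF W n)) :
    ¬ (incl W n).range.FiniteIndex := by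
  intro hfi
  set T : Subgroup (RF W (n + 1)) := (retr W n 1).ker with hT
  have hTnormal : T.Normal := by rw [hT]; infer_instance
  have hTfin : Finite T := by
    have hinj : Function.Injective
        (fun t : T => (QuotientGroup.mk (t : RF W (n + 1)) : RF W (n + 1) ⧸ (incl W n).range)) := by
      intro t t' htt
      rw [QuotientGroup.eq] at htt
      obtain ⟨x, hx⟩ := htt
      have h1 : retr W n 1 ((t : RF W (n + 1))⁻¹ * t') = 1 := by
        rw [map_mul, map_inv, MonoidHom.mem_ker.mp t.2, MonoidHom.mem_ker.mp t'.2]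
        simp
      rw [← hx, retr_incl] at h1
      rw [h1, map_one] at hx
      exact Subtype.ext (inv_mul_eq_one.mp hx.symm)
    exact Finite.of_injective _ hinj
  have htT : RF.gen W (Fin.last n) ∈ T := by
    rw [hT, MonoidHom.mem_ker, retr_last]
  -- finite exponent
  obtain ⟨m, hm0, hm⟩ : ∃ m : ℕ, 0 < m ∧ (RF.gen W (Fin.last n)) ^ m = 1 := by
    have h1 : IsOfFinOrder (⟨RF.gen W (Fin.last n), htT⟩ : T) := isOfFinOrder_of_finite _
    obtain ⟨m, hm0, hm⟩ := isOfFinOrder_iff_pow_eq_one.mp h1
    exact ⟨m, hm0, by simpa using congrArg Subtype.val hm⟩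
  -- the kernel of the conjugation action on `T`
  let C : Subgroup (RF W (n + 1)) := (MulAut.conjNormal : RF W (n + 1) →* MulAut T).ker
  have hfin : Finite (MulAut T) :=
    Finite.of_injective (fun e : MulAut T => (e : T → T)) DFunLike.coe_injective
  have hcen : C.comap (incl W n) ≤ Subgroup.center (RF W n) := by
    intro g hg
    rw [Subgroup.mem_center_iff]
    intro h
    have hg' : (MulAut.conjNormal (incl W n g) : MulAut T) = 1 := hg
    have h1 := congrArg (fun e : MulAut T => ((e ⟨_, htT⟩ : T) : RF W (n + 1))) hg'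
    simp only [MulAut.conjNormal_apply, MulAut.one_apply] at h1
    have h2 := congrArg (retr W n h) h1
    rw [map_mul, map_mul, map_inv, retr_incl, retr_last] at h2
    rw [mul_inv_eq_iff_eq_mul] at h2
    exact h2.symm
  have hCfi' : (C.comap (incl W n)).FiniteIndex := by
    have h1 : C.comap (incl W n) =
        ((MulAut.conjNormal : RF W (n + 1) →* MulAut T).comp (incl W n)).ker := by
      rw [← MonoidHom.comap_ker]
    rw [h1]
    exact Subgroup.finiteIndex_ker _
  have hZfi : (Subgroup.center (RF W n)).FiniteIndex := Subgroup.finiteIndex_of_le hcen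
  have hZfg : Group.FG (Subgroup.center (RF W n)) := inferInstance
  have hZfin : Finite (Subgroup.center (RF W n)) := by
    refine finite_of_comm_fg_torsion ?_ ?_
    · intro a b
      apply Subtype.ext
      exact (Subgroup.mem_center_iff.mp b.2 a)
    · intro z
      rw [isOfFinOrder_iff_pow_eq_one]
      refine ⟨m, hm0, ?_⟩
      apply Subtype.ext
      simpa using pow_eq_one_of_gen hm (RF.sat W n) (z : RF W n)
  have hfin : Finite (RF W n) :=
    (Subgroup.finite_iff_finite_and_finiteIndex (H := Subgroup.center (RF W n))).mpr ⟨hZfin, hZfi⟩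
  exact not_finite_iff_infinite.mpr hinf hfin

end Pool.Agent.Lib.MP_0a5b83_al
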