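import Pool.Agent.Lib.MP_0a5b83_al.PGroup

/-!
The wreath products `C_p wr B^k`: subgroups with a bounded number of generators have bounded
nilpotency class, but the verbal subgroups of the whole groups have unbounded class.
-/

set_option autoImplicit false

open scoped commutatorElement

namespace Pool.Agent.Lib.MP_0a5b83_al

/-- The class of a finite nilpotent group is at most its order. -/
theorem lcs_eq_bot_of_card_le {K : Type} [Group K] [Finite K] (hn : Group.IsNilpotent K) {c : ℕ}
    (hc : Nat.card K ≤ c) : (⊤ : Subgroup K).lowerCentralSeries c = ⊥ := by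
  have key : ∀ i, (⊤ : Subgroup K).lowerCentralSeries i = ⊥ ∨
      Nat.card ((⊤ : Subgroup K).lowerCentralSeries i) + i ≤ Nat.card K := by
    intro i
    induction i with
    | zero =>
      right
      rw [Subgroup.lowerCentralSeries_zero, Subgroup.card_top, add_zero]
    | succ i ih =>
      have hle : (⊤ : Subgroup K).lowerCentralSeries (i + 1) ≤ (⊤ : Subgroup K).lowerCentralSeries i :=
        Subgroup.lowerCentralSeries_antitone ⊤ (Nat.le_succ i)
      rcases ih with ih | ih
      · left
        rw [ih, le_bot_iff] at hle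
        exact hle
      · by_cases heq : (⊤ : Subgroup K).lowerCentralSeries (i + 1) = (⊤ : Subgroup K).lowerCentralSeries i
        · left
          have hconst : ∀ j, (⊤ : Subgroup K).lowerCentralSeries (i + j) =
              (⊤ : Subgroup K).lowerCentralSeries i := by
            intro j
            induction j with
            | zero => rfl
            | succ j ihj =>
              rw [← add_assoc, Subgroup.lowerCentralSeries_succ, ihj, ← Subgroup.lowerCentralSeries_succ, heq]
          obtain ⟨m, hm⟩ := Subgroup.nilpotent_iff_lowerCentralSeries.mp hn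
          have h1 : (⊤ : Subgroup K).lowerCentralSeries (i + m) ≤ ⊥ := by
            rw [← hm]
            exact Subgroup.lowerCentralSeries_antitone ⊤ (Nat.le_add_left m i)
          rw [hconst, le_bot_iff] at h1
          rw [heq, h1]
        · right
          have hlt : (⊤ : Subgroup K).lowerCentralSeries (i + 1) < (⊤ : Subgroup K).lowerCentralSeries i :=
            lt_of_le_of_ne hle heq
          have hcard : Nat.card ((⊤ : Subgroup K).lowerCentralSeries (i + 1)) <
              Nat.card ((⊤ : Subgroup K).lowerCentralSeries i) := by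
            have hss : (((⊤ : Subgroup K).lowerCentralSeries (i + 1) : Subgroup K) : Set K) ⊂
                (((⊤ : Subgroup K).lowerCentralSeries i : Subgroup K) : Set K) := hlt
            exact Set.Finite.card_lt_card (Set.toFinite _) hss
          omega
  rcases key c with h | h
  · exact h
  · exfalso
    have : 0 < Nat.card ((⊤ : Subgroup K).lowerCentralSeries c) := Nat.card_pos
    omega

section

variable {p : ℕ} {B : Type} [Group B] {k : ℕ}

/-- The wreath product. -/
abbrev Wr (p : ℕ) (B : Type) (k : ℕ) : Type := RegularWreathProduct (Multiplicative (ZMod p)) (Fin k → B)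

theorem Wr_isPGroup [hp : Fact p.Prime] [Finite B] (hB : IsPGroup p B) : IsPGroup p (Wr p B k) := by
  have h1 : ∃ a, Nat.card B = p ^ a := hB.exists_card_eq
  obtain ⟨a, ha⟩ := h1
  have h2 : Nat.card (Fin k → B) = p ^ (a * k) := by
    rw [Nat.card_fun, ha]
    simp [pow_mul]
  have h3 : Nat.card (Multiplicative (ZMod p)) = p := by
    rw [Nat.card_congr Multiplicative.toAdd, Nat.card_zmod]
  refine IsPGroup.of_card (n := p ^ (a * k) + a * k) ?_
  rw [RegularWreathProduct.card, h2, h3, pow_add]

theorem base_comm {x y : Wr p B k} (hx : x.right = 1) (hy : y.right = 1) : x * y = y * x := by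
  ext q
  · simp only [RegularWreathProduct.mul_left, Pi.mul_apply, hx, hy, inv_one, one_mul]
    rw [mul_comm]
  · simp [hx, hy]

theorem base_pow {x : Wr p B k} (hx : x.right = 1) (m : ℕ) :
    (x ^ m).right = 1 ∧ ∀ q, (x ^ m).left q = x.left q ^ m := by
  induction m with
  | zero => simp
  | succ m ih =>
    obtain ⟨ih1, ih2⟩ := ih
    refine ⟨?_, ?_⟩
    · rw [pow_succ, RegularWreathProduct.mul_right, ih1, hx, one_mul]
    · intro q
      rw [pow_succ, RegularWreathProduct.mul_left, Pi.mul_apply, ih1, ih2, inv_one, one_mul, pow_succ]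

theorem base_pow_p {x : Wr p B k} (hx : x.right = 1) : x ^ p = 1 := by
  obtain ⟨h1, h2⟩ := base_pow hx p
  ext q
  · rw [h2]
    have : (x.left q) ^ p = 1 := by
      have h3 : ∀ z : ZMod p, p • z = 0 := fun z => by simp
      apply Multiplicative.toAdd.injective
      rw [toAdd_pow]
      exact h3 _
    rw [this]; rfl
  · rw [h1]; rfl

/-- The bound for the order of the image in `B^k` of a group with `m` generators. -/
def bd (b m : ℕ) : ℕ := b ^ (b ^ m)

theorem card_range_le [Finite B] {m : ℕ} (θ : FreeGroup (Fin m) →* (Fin k → B)) :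
    Nat.card θ.range ≤ bd (Nat.card B) m := by
  let τ : Fin k → (Fin m → B) := fun j i => θ (FreeGroup.of i) j
  have hθ : ∀ w j, θ w j = FreeGroup.lift (τ j) w := by
    intro w j
    have h1 : (Pi.evalMonoidHom (fun _ : Fin k => B) j).comp θ = FreeGroup.lift (τ j) := by
      ext i
      simp [τ]
    exact DFunLike.congr_fun h1 w
  have hsurj : θ.range.carrier ⊆ Set.range (fun (h : (Fin m → B) → B) (j : Fin k) => h (τ j)) := by
    rintro _ ⟨w, rfl⟩
    refine ⟨fun t => FreeGroup.lift t w, ?_⟩
    funext j
    exact (hθ w j).symm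
  have h2 : Nat.card θ.range ≤ Nat.card (Set.range (fun (h : (Fin m → B) → B) (j : Fin k) => h (τ j))) := by
    exact Nat.card_mono (Set.toFinite _) hsurj
  refine h2.trans ?_
  refine (Nat.card_le_card_of_surjective _ Set.rangeFactorization_surjective).trans ?_
  rw [Nat.card_fun, Nat.card_fun]
  simp [bd]

/-- The bound for the order of a subgroup with `m` generators. -/
def bd' (p b m : ℕ) : ℕ := p ^ (bd b m * m) * bd b m

theorem card_range_le' [hp : Fact p.Prime] [Finite B] {m : ℕ} (θ : FreeGroup (Fin m) →* Wr p B k) :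
    Nat.card θ.range ≤ bd' p (Nat.card B) m := by
  let K := θ.range
  let r : K →* (Fin k → B) := RegularWreathProduct.rightHom.comp K.subtype
  let A : Subgroup K := r.ker
  have hrange : r.range = (RegularWreathProduct.rightHom.comp θ).range := by
    ext x
    constructor
    · rintro ⟨⟨_, w, rfl⟩, rfl⟩
      exact ⟨w, rfl⟩
    · rintro ⟨w, rfl⟩
      exact ⟨⟨θ w, w, rfl⟩, rfl⟩
  have hidx : A.index ≤ bd (Nat.card B) m := by
    rw [Subgroup.index_ker, hrange]
    exact card_range_le _
  have hrankK : Group.rank K ≤ m := by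
    have h1 : Group.rank (FreeGroup (Fin m)) ≤ m := by
      classical
      refine (Group.rank_le (S := Finset.univ.image (FreeGroup.of : Fin m → FreeGroup (Fin m))) ?_).trans ?_
      · rw [Finset.coe_image, Finset.coe_univ, Set.image_univ, FreeGroup.closure_range_of]
      · exact Finset.card_image_le.trans (by simp)
    exact (Group.rank_le_of_surjective θ.rangeRestrict θ.rangeRestrict_surjective).trans h1
  have hA1 : ∀ a : A, ((a : K) : Wr p B k).right = 1 := fun a => a.2
  have hcomm : ∀ a b : A, a * b = b * a := by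
    intro a b
    apply Subtype.ext
    apply Subtype.ext
    exact base_comm (hA1 a) (hA1 b)
  have hpow : ∀ a : A, a ^ p = 1 := by
    intro a
    apply Subtype.ext
    apply Subtype.ext
    exact base_pow_p (hA1 a)
  have hcardA : Nat.card A ≤ p ^ (bd (Nat.card B) m * m) := by
    let inst : CommGroup A := { (inferInstance : Group A) with mul_comm := hcomm }
    have h1 : Nat.card A ∣ p ^ Group.rank A := card_dvd_exponent_pow_rank' A hpow
    have h2 : Group.rank A ≤ bd (Nat.card B) m * m :=
      (Subgroup.rank_le_index_mul_rank A).trans (Nat.mul_le_mul hidx hrankK)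
    exact (Nat.le_of_dvd (pow_pos hp.out.pos _) h1).trans (Nat.pow_le_pow_right hp.out.pos h2)
  calc Nat.card θ.range = Nat.card A * A.index := (Subgroup.card_mul_index A).symm
    _ ≤ bd' p (Nat.card B) m := Nat.mul_le_mul hcardA hidx

theorem range_lcs [hp : Fact p.Prime] [Finite B] {m : ℕ} (hB : IsPGroup p B) (θ : FreeGroup (Fin m) →* Wr p B k) {c : ℕ}
    (hc : bd' p (Nat.card B) m ≤ c) : θ.range.lowerCentralSeries c = ⊥ := by
  have hnil : Group.IsNilpotent θ.range := ((Wr_isPGroup hB).to_subgroup θ.range).isNilpotent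
  rw [← Subgroup.top_subtype_lowerCentralSeries,
    lcs_eq_bot_of_card_le hnil ((card_range_le' θ).trans hc), Subgroup.map_bot]

open RegularWreathProduct in
/-- The commutator of a base element with an element of the complement. -/
theorem commutator_base (f : (Fin k → B) → Multiplicative (ZMod p)) (q : Fin k → B) :
    ⁅(⟨f, 1⟩ : Wr p B k), inl q⁆ = ⟨fun x => f x * (f (q⁻¹ * x))⁻¹, 1⟩ := by
  rw [commutatorElement_def]
  ext x
  · simp [inl]
  · simp [inl]

/-- The base functions of the iterated commutators. -/
def ff (p : ℕ) [DecidableEq (Fin k → B)] (z : ℕ → (Fin k → B)) :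
    ℕ → (Fin k → B) → Multiplicative (ZMod p)
  | 0 => fun x => if x = 1 then Multiplicative.ofAdd 1 else 1
  | j + 1 => fun x => ff p z j x * (ff p z j ((z j)⁻¹ * x))⁻¹

open RegularWreathProduct in
theorem ff_mem [DecidableEq (Fin k → B)] (z : ℕ → (Fin k → B)) (V : Subgroup (Wr p B k)) (hV : V.Normal)
    (hz : ∀ j, inl (z j) ∈ V) (j : ℕ) : (⟨ff p z (j + 1), 1⟩ : Wr p B k) ∈ V.lowerCentralSeries j := by
  induction j with
  | zero =>
    have h1 : (⟨ff p z 1, 1⟩ : Wr p B k) = ⁅(⟨ff p z 0, 1⟩ : Wr p B k), inl (z 0)⁆ := by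
      rw [commutator_base]; rfl
    rw [h1, Subgroup.lowerCentralSeries_zero, commutatorElement_def]
    exact V.mul_mem (hV.conj_mem _ (hz 0) _) (V.inv_mem (hz 0))
  | succ j ih =>
    have h1 : (⟨ff p z (j + 2), 1⟩ : Wr p B k) =
        ⁅(⟨ff p z (j + 1), 1⟩ : Wr p B k), inl (z (j + 1))⁆ := by
      rw [commutator_base]; rfl
    rw [h1, Subgroup.lowerCentralSeries_succ]
    exact Subgroup.commutator_mem_commutator ih (hz _)

end

/-- The verbal subgroup of `C_p wr B^k` has large class if `k` is large and `B` violates a law. -/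
theorem verbal_lcs_ne_bot {W : Set (FreeGroup ℕ)} {p : ℕ} [hp : Fact p.Prime] {B : Type} [Group B]
    (hB : verbal W B ≠ ⊥) {c k : ℕ} (hk : c + 1 ≤ k) :
    (verbal W (Wr p B k)).lowerCentralSeries c ≠ ⊥ := by
  classical
  obtain ⟨z0, hz0W, hz0⟩ : ∃ z : B, z ∈ verbal W B ∧ z ≠ 1 := by
    obtain ⟨w, hw⟩ := Subgroup.ne_bot_iff_exists_ne_one.mp hB
    exact ⟨w.1, w.2, fun h => hw (Subtype.ext h)⟩
  let z : ℕ → (Fin k → B) := fun j => if h : j < k then Pi.mulSingle ⟨j, h⟩ z0 else 1
  have hzV : ∀ j, RegularWreathProduct.inl (z j) ∈ verbal W (Wr p B k) := by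
    intro j
    simp only [z]
    by_cases h : j < k
    · rw [dif_pos h]
      exact map_mem_verbal W ((RegularWreathProduct.inl : (Fin k → B) →* Wr p B k).comp
        (MonoidHom.mulSingle (fun _ : Fin k => B) ⟨j, h⟩)) hz0W
    · rw [dif_neg h, map_one]
      exact Subgroup.one_mem _
  have hmem := ff_mem (p := p) z _ (verbal_normal W (Wr p B k)) hzV c
  have key : ∀ j, j ≤ k → (∀ x : Fin k → B, ff p z j x ≠ 1 → ∀ i : Fin k, j ≤ i.1 → x i = 1) ∧
      ff p z j 1 = Multiplicative.ofAdd 1 := by
    intro j
    induction j with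
    | zero =>
      intro _
      refine ⟨?_, by simp [ff]⟩
      intro x hx i _
      by_cases h1 : x = 1
      · rw [h1]; rfl
      · exact absurd (by simp [ff, h1]) hx
    | succ j ih =>
      intro hj
      obtain ⟨ih1, ih2⟩ := ih (by omega)
      have hjk : j < k := by omega
      have hzj : z j = Pi.mulSingle ⟨j, hjk⟩ z0 := by simp only [z, dif_pos hjk]
      refine ⟨?_, ?_⟩
      · intro x hx i hi
        by_cases h1 : ff p z j x = 1
        · have h2 : ff p z j ((z j)⁻¹ * x) ≠ 1 := by
            intro h3
            apply hx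
            simp only [ff]
            rw [h1, h3]; simp
          have h3 := ih1 _ h2 i (by omega)
          have h4 : ((z j)⁻¹ * x) i = x i := by
            rw [Pi.mul_apply, Pi.inv_apply, hzj, Pi.mulSingle_eq_of_ne, inv_one, one_mul]
            intro h5
            rw [h5] at hi
            simp at hi
          rw [← h4]; exact h3
        · exact ih1 x h1 i (by omega)
      · simp only [ff]
        have h1 : ff p z j ((z j)⁻¹ * 1) = 1 := by
          by_contra h2
          have h3 := ih1 _ h2 ⟨j, hjk⟩ le_rfl
          rw [mul_one, Pi.inv_apply, hzj, Pi.mulSingle_eq_same, inv_eq_one] at h3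
          exact hz0 h3
        rw [h1, ih2]; simp
  intro hbot
  rw [hbot, Subgroup.mem_bot] at hmem
  have h1 := congrArg RegularWreathProduct.left hmem
  have h2 := congrFun h1 1
  simp only [RegularWreathProduct.one_left, Pi.one_apply] at h2
  rw [(key (c + 1) hk).2] at h2
  have h3 : (1 : ZMod p) = 0 := congrArg Multiplicative.toAdd h2
  exact one_ne_zero h3

end Pool.Agent.Lib.MP_0a5b83_al
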