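import Pool.Agent.Lib.MP_0a5b83_al.TwoGen
import Pool.Agent.Lib.MP_0a5b83_al.Embed
import Pool.Agent.Lib.MP_0a5b83_al.Wreath

/-!
The equivalence theorem.
-/

set_option autoImplicit false

open scoped commutatorElement

namespace Pool.Agent.Lib.MP_0a5b83_al

universe u v

/-- The verbal subgroup for the laws that the verbal subgroup of `W` is nilpotent of class `≤ c`. -/
abbrev VL (W : Set (FreeGroup ℕ)) (c : ℕ) (G : Type u) [Group G] : Subgroup G :=
  (verbal W G).lowerCentralSeries c

theorem VL_normal (W : Set (FreeGroup ℕ)) (c : ℕ) (G : Type u) [Group G] : (VL W c G).Normal := by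
  induction c with
  | zero => exact verbal_normal W G
  | succ c ih =>
    have h1 : (VL W c G).Normal := ih
    have h2 : (verbal W G).Normal := verbal_normal W G
    show (⁅VL W c G, verbal W G⁆).Normal
    exact Subgroup.commutator_normal _ _

theorem map_VL_le (W : Set (FreeGroup ℕ)) (c : ℕ) {G : Type u} {H : Type v} [Group G] [Group H]
    (θ : G →* H) : (VL W c G).map θ ≤ VL W c H := by
  rw [Subgroup.map_lowerCentralSeries]
  exact Subgroup.lowerCentralSeries_mono c (map_verbal_le W θ)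

theorem map_VL_of_surjective (W : Set (FreeGroup ℕ)) (c : ℕ) {G : Type u} {H : Type v} [Group G]
    [Group H] (θ : G →* H) (hθ : Function.Surjective θ) : (VL W c G).map θ = VL W c H := by
  rw [Subgroup.map_lowerCentralSeries, map_verbal_of_surjective W θ hθ]

/-- The laws in `n + 1` variables expressing that the verbal subgroup of `W` is nilpotent of class
at most `c`. -/
def star (W : Set (FreeGroup ℕ)) (c n : ℕ) : Set (FreeGroup ℕ) :=
  (FreeGroup.map (Fin.val : Fin (n + 1) → ℕ)) '' (VL W c (FreeGroup (Fin (n + 1))) : Set (FreeGroup (Fin (n + 1))))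

theorem lift_map_val {G : Type u} [Group G] {m : ℕ} (f : ℕ → G) (v : FreeGroup (Fin m)) :
    FreeGroup.lift f (FreeGroup.map (Fin.val : Fin m → ℕ) v) =
      FreeGroup.lift (fun i : Fin m => f i.val) v := by
  have h : (FreeGroup.lift f).comp (FreeGroup.map (Fin.val : Fin m → ℕ)) =
      FreeGroup.lift (fun i : Fin m => f i.val) := by
    ext i
    simp
  exact DFunLike.congr_fun h v

theorem verbal_star_le (W : Set (FreeGroup ℕ)) (c n : ℕ) (G : Type u) [Group G] :
    verbal (star W c n) G ≤ VL W c G := by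
  have hn := VL_normal W c G
  refine Subgroup.normalClosure_le_normal ?_
  rintro _ ⟨_, ⟨v, hv, rfl⟩, f, rfl⟩
  rw [lift_map_val]
  exact map_VL_le W c _ (Subgroup.mem_map_of_mem _ hv)

theorem verbal_star (W : Set (FreeGroup ℕ)) (c n : ℕ) {m : ℕ} (hm : m ≤ n + 1) :
    verbal (star W c n) (FreeGroup (Fin m)) = VL W c (FreeGroup (Fin m)) := by
  refine le_antisymm (verbal_star_le W c n _) ?_
  intro x hx
  have h1 : FreeGroup.map (Fin.castLE hm) x ∈ VL W c (FreeGroup (Fin (n + 1))) :=
    map_VL_le W c _ (Subgroup.mem_map_of_mem _ hx)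
  let f : ℕ → FreeGroup (Fin m) := fun i => if h : i < m then FreeGroup.of ⟨i, h⟩ else 1
  have h2 : FreeGroup.lift f (FreeGroup.map (Fin.val : Fin (n + 1) → ℕ)
      (FreeGroup.map (Fin.castLE hm) x)) = x := by
    have h3 : ((FreeGroup.lift f).comp (FreeGroup.map (Fin.val : Fin (n + 1) → ℕ))).comp
        (FreeGroup.map (Fin.castLE hm)) = MonoidHom.id _ := by
      ext i
      simp [f]
    exact DFunLike.congr_fun h3 x
  rw [← h2]
  have h4 : FreeGroup.map (Fin.val : Fin (n + 1) → ℕ) (FreeGroup.map (Fin.castLE hm) x) ∈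
      star W c n := ⟨_, h1, rfl⟩
  exact value_mem_verbal h4 f

/-- If `F_{n+1}` embeds in `F_n` for a proper variety `W`, there is a proper variety with the same
property that contains a finite group not embeddable in any `n`-generated group of it. -/
theorem counterexample {W : Set (FreeGroup ℕ)} (hW : Proper W) {n : ℕ}
    (φ : RF W (n + 1) →* RF W n) (hφ : Function.Injective φ) :
    ∃ W' : Set (FreeGroup ℕ), (∃ Φ : RF W' (n + 1) →* RF W' n, Function.Injective Φ) ∧
      ∃ (G : Type) (_ : Group G) (_ : Finite G), Sat W' G ∧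
        ¬ ∃ (H : Type) (_ : Group H), Sat W' H ∧ (∃ s : Fin n → H, Subgroup.closure (Set.range s) = ⊤) ∧
          ∃ ψ : G →* H, Function.Injective ψ := by
  obtain ⟨w, hw, hw1⟩ := hW.law
  obtain ⟨p, hp, B, hBg, hBf, f, hB, hf⟩ := exists_pGroup w hw1
  have hBne : verbal W B ≠ ⊥ := by
    intro h
    rw [verbal_eq_bot_iff] at h
    exact hf (h w hw f)
  set c := bd' p (Nat.card B) (n + 1) with hc
  refine ⟨star W c n, ?_, Wr p B (c + 1), inferInstance, ?_, ?_, ?_⟩
  · obtain ⟨Φ, hΦ⟩ := exists_embedding_lcs hW φ hφ c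
    have e1 : RF (star W c n) (n + 1) ≃* (FreeGroup (Fin (n + 1)) ⧸ VL W c (FreeGroup (Fin (n + 1)))) := by
      have := VL_normal W c (FreeGroup (Fin (n + 1)))
      exact QuotientGroup.quotientMulEquivOfEq (verbal_star W c n le_rfl)
    have e2 : (FreeGroup (Fin n) ⧸ VL W c (FreeGroup (Fin n))) ≃* RF (star W c n) n := by
      have := VL_normal W c (FreeGroup (Fin n))
      exact (QuotientGroup.quotientMulEquivOfEq (verbal_star W c n (Nat.le_succ n))).symm
    exact ⟨(e2.toMonoidHom.comp Φ).comp e1.toMonoidHom,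
      (e2.injective.comp hΦ).comp e1.injective⟩
  · exact Nat.finite_of_card_ne_zero (by
      have hpz : NeZero p := ⟨hp.out.ne_zero⟩
      rw [RegularWreathProduct.card]
      have h1 : Nat.card (Multiplicative (ZMod p)) ≠ 0 := Nat.card_pos.ne'
      have h2 : Nat.card (Fin (c + 1) → B) ≠ 0 := Nat.card_pos.ne'
      exact Nat.mul_ne_zero (pow_ne_zero _ h1) h2)
  · rintro _ ⟨v, hv, rfl⟩ g
    rw [lift_map_val]
    have h1 : FreeGroup.lift (fun i : Fin (n + 1) => g i.val) v ∈
        (VL W c (FreeGroup (Fin (n + 1)))).map (FreeGroup.lift (fun i : Fin (n + 1) => g i.val)) :=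
      Subgroup.mem_map_of_mem _ hv
    rw [Subgroup.map_lowerCentralSeries] at h1
    have h2 : (verbal W (FreeGroup (Fin (n + 1)))).map
        (FreeGroup.lift (fun i : Fin (n + 1) => g i.val)) ≤
        (FreeGroup.lift (fun i : Fin (n + 1) => g i.val)).range := by
      rw [MonoidHom.range_eq_map]
      exact Subgroup.map_mono le_top
    have h3 : FreeGroup.lift (fun i : Fin (n + 1) => g i.val) v ∈
        (FreeGroup.lift (fun i : Fin (n + 1) => g i.val)).range.lowerCentralSeries c :=
      Subgroup.lowerCentralSeries_mono c h2 h1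
    rw [range_lcs hB _ (le_of_eq hc.symm)] at h3
    exact Subgroup.mem_bot.mp h3
  · rintro ⟨H, hHg, hH, ⟨s, hs⟩, ψ, hψ⟩
    have hsurj : Function.Surjective (FreeGroup.lift s) := by
      rw [← MonoidHom.range_eq_top, FreeGroup.range_lift_eq_closure, hs]
    have h1 : VL W c H = ⊥ := by
      rw [← map_VL_of_surjective W c (FreeGroup.lift s) hsurj, ← verbal_star W c n (Nat.le_succ n),
        map_verbal_of_surjective _ _ hsurj, verbal_eq_bot_iff.mpr hH]
    have h2 := map_VL_le W c ψ
    rw [h1, le_bot_iff, Subgroup.map_eq_bot_iff_of_injective _ hψ] at h2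
    exact verbal_lcs_ne_bot hBne le_rfl h2

theorem two_le_of_trivial {W : Set (FreeGroup ℕ)} (hW : ∀ w ∈ W, w = 1) {n : ℕ}
    (φ : RF W (n + 1) →* RF W n) (hφ : Function.Injective φ) : 2 ≤ n := by
  have hsat : Sat W (Equiv.Perm (Fin 3)) := by
    intro w hw f
    rw [hW w hw, map_one]
  by_contra hlt
  have hn : n = 0 ∨ n = 1 := by omega
  obtain rfl | rfl := hn
  · have h1 : ∀ x : RF W 0, x = 1 := by
      intro x
      obtain ⟨y, rfl⟩ := QuotientGroup.mk_surjective x
      rw [Subsingleton.elim y 1]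
      rfl
    have h2 : RF.gen W (0 : Fin 1) = 1 := hφ ((h1 _).trans (h1 _).symm)
    have h3 := RF.lift_gen hsat (fun _ : Fin 1 => Equiv.swap 0 1) 0
    rw [h2, map_one] at h3
    exact absurd h3 (by decide)
  · have h1 : ∀ x : RF W 1, x ∈ Subgroup.zpowers (RF.gen W (0 : Fin 1)) := by
      intro x
      have h2 : Set.range (RF.gen W : Fin 1 → RF W 1) = {RF.gen W (0 : Fin 1)} := by
        ext y
        constructor
        · rintro ⟨i, rfl⟩
          rw [Subsingleton.elim i 0]
          rfl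
        · rintro rfl
          exact ⟨0, rfl⟩
      have h3 := RF.closure_gen W 1
      rw [h2] at h3
      rw [Subgroup.zpowers_eq_closure, h3]
      exact Subgroup.mem_top x
    have h2 : ∀ x y : RF W 1, x * y = y * x := by
      intro x y
      obtain ⟨a, rfl⟩ := Subgroup.mem_zpowers_iff.mp (h1 x)
      obtain ⟨b, rfl⟩ := Subgroup.mem_zpowers_iff.mp (h1 y)
      rw [← zpow_add, ← zpow_add, add_comm]
    have h3 : RF.gen W (0 : Fin 2) * RF.gen W (1 : Fin 2) =
        RF.gen W (1 : Fin 2) * RF.gen W (0 : Fin 2) := by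
      apply hφ
      rw [map_mul, map_mul, h2]
    have h4 := congrArg (RF.lift hsat
      (fun i : Fin 2 => if i = 0 then Equiv.swap (0 : Fin 3) 1 else Equiv.swap (1 : Fin 3) 2)) h3
    rw [map_mul, map_mul, RF.lift_gen, RF.lift_gen] at h4
    exact absurd h4 (by decide)

theorem main_tfae : List.TFAE [
    ∀ (W : Set (FreeGroup ℕ)) (n : ℕ), NonRegularAt W n →
      ∀ (G : Type) [Group G] [Countable G], Sat W G → EmbedsInGenerated W n G,
    ∀ (W : Set (FreeGroup ℕ)) (n : ℕ), NonRegularAt W n →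
      ∀ (G : Type) [Group G] [Finite G], Sat W G → EmbedsInGenerated W n G,
    ∀ (W : Set (FreeGroup ℕ)) (n : ℕ), NonRegularAt W n →
      (∀ w ∈ W, w = 1) ∨ ∀ (G : Type) [Group G], Sat W G → Subsingleton G] := by
  tfae_have 1 → 2 := by
    intro hQ W n hφ G _ _ hsat
    exact hQ W n hφ G hsat
  tfae_have 2 → 3 := by
    intro hQ W n hφ
    by_contra hcon
    push Not at hcon
    obtain ⟨⟨w, hw, hw1⟩, G, hG, hsat, hns⟩ := hcon
    have hW : Proper W := ⟨⟨w, hw, hw1⟩, G, hG, hsat, hns⟩
    obtain ⟨φ, hφ⟩ := hφ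
    obtain ⟨W', hΦ, G', hG', hGf, hsat', hno⟩ := counterexample hW φ hφ
    exact hno (hQ W' n hΦ G' hsat')
  tfae_have 3 → 1 := by
    intro hR W n hφ G hGg hGc hsat
    obtain hW | hW := hR W n hφ
    · -- all groups
      obtain ⟨φ, hφ⟩ := hφ
      have hn : 2 ≤ n := two_le_of_trivial hW φ hφ
      obtain ⟨H, hHg, s, ψ, hs, hψ⟩ := exists_two_generated G
      refine ⟨H, hHg, ?_, ?_, ψ, hψ⟩
      · intro w hw f
        rw [hW w hw, map_one]
      · refine ⟨fun i => if h : i.val < 2 then s ⟨i.val, h⟩ else 1, ?_⟩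
        rw [eq_top_iff, ← hs]
        apply Subgroup.closure_mono
        rintro _ ⟨i, rfl⟩
        exact ⟨⟨i.val, lt_of_lt_of_le i.2 hn⟩, dif_pos i.2⟩
    · have hsub : Subsingleton G := hW G hsat
      refine ⟨G, hGg, hsat, ⟨fun _ => 1, ?_⟩, MonoidHom.id G, fun _ _ h => h⟩
      exact Subsingleton.elim _ _
  tfae_finish

end Pool.Agent.Lib.MP_0a5b83_al
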