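import Pool.Agent.Lib.MP_0a5b83_al.Basic

/-!
A nontrivial word is not a law in all finite `p`-groups: free groups are residually `p`-finite. We
only prove the following weak form: for every nontrivial word there is a prime `p` and a finite
`p`-group in which the word is not a law.
-/

set_option autoImplicit false

namespace Pool.Agent.Lib.MP_0a5b83_al

/-- A list of syllables: consecutive generators are different and exponents are nonzero. -/
def IsSyl : List (ℕ × ℤ) → Prop
  | [] => True
  | [a] => a.2 ≠ 0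
  | a :: b :: l => a.2 ≠ 0 ∧ a.1 ≠ b.1 ∧ IsSyl (b :: l)

/-- The element of the free group defined by a list of syllables. -/
def sylProd (l : List (ℕ × ℤ)) : FreeGroup ℕ := (l.map fun a => FreeGroup.of a.1 ^ a.2).prod

theorem IsSyl.tail {a : ℕ × ℤ} {l : List (ℕ × ℤ)} (h : IsSyl (a :: l)) : IsSyl l := by
  cases l with
  | nil => trivial
  | cons b l => exact h.2.2

theorem IsSyl.head {a : ℕ × ℤ} {l : List (ℕ × ℤ)} (h : IsSyl (a :: l)) : a.2 ≠ 0 := by
  cases l with
  | nil => exact h
  | cons b l => exact h.1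

theorem IsSyl.change {a : ℕ × ℤ} {l : List (ℕ × ℤ)} (h : IsSyl (a :: l)) {e : ℤ} (he : e ≠ 0) :
    IsSyl ((a.1, e) :: l) := by
  cases l with
  | nil => exact he
  | cons b l => exact ⟨he, h.2.1, h.2.2⟩

/-- Every element of the free group is given by a list of syllables. -/
theorem exists_syl (w : FreeGroup ℕ) : ∃ l, IsSyl l ∧ sylProd l = w := by
  have key : ∀ (i : ℕ) (s : ℤ), s ≠ 0 → ∀ l, IsSyl l → ∃ l', IsSyl l' ∧
      sylProd l' = FreeGroup.of i ^ s * sylProd l := by
    intro i s hs l hl
    cases l with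
    | nil => exact ⟨[(i, s)], hs, by simp [sylProd]⟩
    | cons a l =>
      by_cases hi : i = a.1
      · by_cases he : s + a.2 = 0
        · refine ⟨l, hl.tail, ?_⟩
          simp only [sylProd, List.map_cons, List.prod_cons]
          rw [← mul_assoc, hi, ← zpow_add, he, zpow_zero, one_mul]
        · refine ⟨(a.1, s + a.2) :: l, hl.change he, ?_⟩
          simp only [sylProd, List.map_cons, List.prod_cons]
          rw [← mul_assoc, hi, ← zpow_add]
      · exact ⟨(i, s) :: a :: l, ⟨hs, hi, hl⟩, by simp [sylProd]⟩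
  obtain ⟨L, rfl⟩ : ∃ L, FreeGroup.mk L = w := ⟨w.toWord, FreeGroup.mk_toWord⟩
  induction L with
  | nil => exact ⟨[], trivial, rfl⟩
  | cons a L ih =>
    obtain ⟨l, hl, hlL⟩ := ih
    obtain ⟨i, b⟩ := a
    cases b with
    | true =>
      obtain ⟨l', hl', h⟩ := key i 1 one_ne_zero l hl
      refine ⟨l', hl', ?_⟩
      rw [h, hlL, zpow_one]
      rfl
    | false =>
      obtain ⟨l', hl', h⟩ := key i (-1) (by norm_num) l hl
      refine ⟨l', hl', ?_⟩
      rw [h, hlL, zpow_neg_one]
      rfl

section Matrices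

variable (p : ℕ) (k : ℕ) (idx : ℕ → ℕ)

/-- The nilpotent matrix attached to the generator `i`: the sum of the elementary matrices
`E_{s, s + 1}` with `idx s = i`. -/
def Nmat (i : ℕ) : Matrix (Fin (k + 1)) (Fin (k + 1)) (ZMod p) :=
  fun a b => if b.1 = a.1 + 1 ∧ idx a.1 = i then 1 else 0

variable {p k idx}

/-- Strictly upper triangular matrices. -/
def SUT (u : Matrix (Fin (k + 1)) (Fin (k + 1)) (ZMod p)) : Prop := ∀ a b, b ≤ a → u a b = 0

theorem SUT.add {u v : Matrix (Fin (k + 1)) (Fin (k + 1)) (ZMod p)} (hu : SUT u) (hv : SUT v) :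
    SUT (u + v) := by
  intro a b hab
  rw [Matrix.add_apply, hu a b hab, hv a b hab, add_zero]

theorem SUT.mul {u v : Matrix (Fin (k + 1)) (Fin (k + 1)) (ZMod p)} (hu : SUT u) (hv : SUT v) :
    SUT (u * v) := by
  intro a b hab
  rw [Matrix.mul_apply]
  refine Finset.sum_eq_zero (fun c _ => ?_)
  by_cases h : c ≤ a
  · rw [hu a c h, zero_mul]
  · rw [hv c b (le_trans hab (le_of_lt (not_le.mp h))), mul_zero]

theorem SUT.pow_apply {u : Matrix (Fin (k + 1)) (Fin (k + 1)) (ZMod p)} (hu : SUT u) (m : ℕ)
    (a b : Fin (k + 1)) (h : b.1 < a.1 + m) : (u ^ m) a b = 0 := by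
  induction m generalizing a b with
  | zero =>
    rw [pow_zero, Matrix.one_apply_ne]
    intro hab
    rw [hab] at h
    omega
  | succ m ih =>
    rw [pow_succ', Matrix.mul_apply]
    refine Finset.sum_eq_zero (fun c _ => ?_)
    by_cases hc : c ≤ a
    · rw [hu a c hc, zero_mul]
    · have h1 : a.1 < c.1 := not_le.mp hc
      rw [ih c b (by omega), mul_zero]

theorem SUT.pow_eq_zero {u : Matrix (Fin (k + 1)) (Fin (k + 1)) (ZMod p)} (hu : SUT u) {m : ℕ}
    (hm : k + 1 ≤ m) : u ^ m = 0 := by
  ext a b
  rw [hu.pow_apply m a b (by have := b.2; omega)]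
  rfl

theorem Nmat_SUT (i : ℕ) : SUT (Nmat p k idx i) := by
  intro a b hab
  have : ¬ (b.1 = a.1 + 1 ∧ idx a.1 = i) := by
    rintro ⟨h, -⟩
    have h2 : b.1 ≤ a.1 := hab
    omega
  simp only [Nmat, if_neg this]

theorem Nmat_sq (hidx : ∀ s, s + 1 < k → idx s ≠ idx (s + 1)) (i : ℕ) :
    Nmat p k idx i * Nmat p k idx i = 0 := by
  ext a b
  rw [Matrix.mul_apply]
  refine Finset.sum_eq_zero (fun c _ => ?_)
  simp only [Nmat]
  by_cases h1 : c.1 = a.1 + 1 ∧ idx a.1 = i
  · by_cases h2 : b.1 = c.1 + 1 ∧ idx c.1 = i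
    · exfalso
      have h3 := hidx a.1 (by have := b.2; omega)
      apply h3
      rw [h1.2, ← h1.1, h2.2]
    · rw [if_neg h2, mul_zero]
  · rw [if_neg h1, zero_mul]

/-- The unipotent matrix attached to a generator. -/
def X (hidx : ∀ s, s + 1 < k → idx s ≠ idx (s + 1)) (i : ℕ) :
    (Matrix (Fin (k + 1)) (Fin (k + 1)) (ZMod p))ˣ where
  val := 1 + Nmat p k idx i
  inv := 1 - Nmat p k idx i
  val_inv := by
    have := Nmat_sq (p := p) hidx i
    rw [mul_sub, add_mul, add_mul, this]
    simp
  inv_val := by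
    have := Nmat_sq (p := p) hidx i
    rw [sub_mul, mul_add, mul_add, this]
    simp

theorem X_zpow (hidx : ∀ s, s + 1 < k → idx s ≠ idx (s + 1)) (i : ℕ) (e : ℤ) :
    ((X (p := p) hidx i ^ e : (Matrix (Fin (k + 1)) (Fin (k + 1)) (ZMod p))ˣ) :
      Matrix (Fin (k + 1)) (Fin (k + 1)) (ZMod p)) = 1 + (e : ZMod p) • Nmat p k idx i := by
  have hsq := Nmat_sq (p := p) hidx i
  induction e with
  | zero => simp
  | succ n ih =>
    rw [zpow_add_one, Units.val_mul, ih]
    have h1 : (X (p := p) hidx i : Matrix (Fin (k + 1)) (Fin (k + 1)) (ZMod p)) =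
      1 + Nmat p k idx i := rfl
    rw [h1, mul_add, add_mul, add_mul, smul_mul_assoc, smul_mul_assoc, hsq]
    push_cast
    rw [add_smul, one_smul]
    simp only [one_mul, mul_one, smul_zero, add_zero]
    abel
  | pred n ih =>
    rw [zpow_sub_one, Units.val_mul, ih]
    have h1 : ((X (p := p) hidx i)⁻¹ : (Matrix (Fin (k + 1)) (Fin (k + 1)) (ZMod p))ˣ).val =
      1 - Nmat p k idx i := rfl
    rw [h1, mul_sub, add_mul, add_mul, smul_mul_assoc, smul_mul_assoc, hsq]
    push_cast
    rw [sub_smul, one_smul]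
    simp only [one_mul, mul_one, smul_zero, add_zero]
    abel

/-- The finite `p`-group of unipotent upper triangular matrices generated by the `X i`. -/
def BB (hidx : ∀ s, s + 1 < k → idx s ≠ idx (s + 1)) :
    Subgroup (Matrix (Fin (k + 1)) (Fin (k + 1)) (ZMod p))ˣ :=
  Subgroup.closure (Set.range (X (p := p) hidx))

theorem BB_SUT [Fact p.Prime] (hidx : ∀ s, s + 1 < k → idx s ≠ idx (s + 1))
    {g : (Matrix (Fin (k + 1)) (Fin (k + 1)) (ZMod p))ˣ} (hg : g ∈ BB hidx) :
    SUT (g.val - 1) := by
  have hmul : ∀ x y : (Matrix (Fin (k + 1)) (Fin (k + 1)) (ZMod p))ˣ, SUT (x.val - 1) →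
      SUT (y.val - 1) → SUT ((x * y).val - 1) := by
    intro x y hx hy
    have h1 : (x * y).val - 1 = (x.val - 1) * (y.val - 1) + ((x.val - 1) + (y.val - 1)) := by
      rw [Units.val_mul]
      noncomm_ring
    rw [h1]
    exact (hx.mul hy).add (hx.add hy)
  have hone : SUT ((1 : (Matrix (Fin (k + 1)) (Fin (k + 1)) (ZMod p))ˣ).val - 1) := by
    intro a b _
    simp
  have hpow : ∀ (x : (Matrix (Fin (k + 1)) (Fin (k + 1)) (ZMod p))ˣ), SUT (x.val - 1) →
      ∀ n : ℕ, SUT ((x ^ n).val - 1) := by
    intro x hx n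
    induction n with
    | zero => rw [pow_zero]; exact hone
    | succ n ih => rw [pow_succ]; exact hmul _ _ ih hx
  induction hg using Subgroup.closure_induction with
  | mem x hx =>
    obtain ⟨i, rfl⟩ := hx
    have h1 : (X (p := p) hidx i).val - 1 = Nmat p k idx i := by
      simp [X]
    rw [h1]
    exact Nmat_SUT i
  | one => exact hone
  | mul x y hx hy ihx ihy => exact hmul x y ihx ihy
  | inv x hx ih =>
    have hfin : IsOfFinOrder x := isOfFinOrder_of_finite x
    have h1 : x⁻¹ = x ^ (orderOf x - 1) := by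
      rw [inv_eq_iff_mul_eq_one, ← pow_succ']
      rw [Nat.sub_add_cancel hfin.orderOf_pos, pow_orderOf_eq_one]
    rw [h1]
    exact hpow x ih _

theorem BB_isPGroup [Fact p.Prime] (hidx : ∀ s, s + 1 < k → idx s ≠ idx (s + 1)) :
    IsPGroup p (BB (p := p) hidx) := by
  intro g
  refine ⟨k + 1, ?_⟩
  apply Subtype.ext
  apply Units.ext
  have hg := BB_SUT hidx g.2
  set u : Matrix (Fin (k + 1)) (Fin (k + 1)) (ZMod p) := (g : (Matrix (Fin (k + 1)) (Fin (k + 1)) (ZMod p))ˣ).val - 1 with hu
  have hgu : (g : (Matrix (Fin (k + 1)) (Fin (k + 1)) (ZMod p))ˣ).val = u + 1 := by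
    rw [hu]; abel
  simp only [Subgroup.coe_pow, Units.val_pow_eq_pow_val, Subgroup.coe_one, Units.val_one]
  rw [hgu, add_pow_char_pow_of_commute (p := p) (n := k + 1) (Commute.one_right u), one_pow]
  rw [hg.pow_eq_zero, zero_add]
  exact le_of_lt (Nat.lt_pow_self (Nat.Prime.one_lt Fact.out))

end Matrices

/-- For every nontrivial word there is a finite `p`-group in which it is not a law. -/
theorem exists_pGroup (w : FreeGroup ℕ) (hw : w ≠ 1) :
    ∃ (p : ℕ) (_ : Fact p.Prime) (B : Type) (_ : Group B) (_ : Finite B) (f : ℕ → B),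
      IsPGroup p B ∧ FreeGroup.lift f w ≠ 1 := by
  classical
  obtain ⟨l, hl, rfl⟩ := exists_syl w
  set k := l.length with hk
  have hk0 : k ≠ 0 := by
    intro h
    apply hw
    rw [List.length_eq_zero_iff.mp h]
    rfl
  -- the data of the word as functions on `ℕ`
  let idx : ℕ → ℕ := fun s => (l.getD s (0, 0)).1
  let ex : ℕ → ℤ := fun s => (l.getD s (0, 0)).2
  have hsylget : ∀ (l : List (ℕ × ℤ)), IsSyl l → ∀ s, s + 1 < l.length →
      (l.getD s (0, 0)).1 ≠ (l.getD (s + 1) (0, 0)).1 := by
    intro l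
    induction l with
    | nil => intro _ s hs; simp at hs
    | cons a l ih =>
      intro h s hs
      cases l with
      | nil => simp at hs
      | cons b l =>
        cases s with
        | zero => simpa using h.2.1
        | succ s =>
          have := ih h.2.2 s (by simpa using hs)
          simpa using this
  have hsylex : ∀ (l : List (ℕ × ℤ)), IsSyl l → ∀ s, s < l.length → (l.getD s (0, 0)).2 ≠ 0 := by
    intro l
    induction l with
    | nil => intro _ s hs; simp at hs
    | cons a l ih =>
      intro h s hs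
      cases s with
      | zero => simpa using h.head
      | succ s =>
        have := ih h.tail s (by simpa using hs)
        simpa using this
  have hidx : ∀ s, s + 1 < k → idx s ≠ idx (s + 1) := fun s hs => hsylget l hl s hs
  have hex : ∀ s, s < k → ex s ≠ 0 := fun s hs => hsylex l hl s hs
  -- the prime
  obtain ⟨p, hp1, hp2⟩ := Nat.exists_infinite_primes ((∑ s ∈ Finset.range k, (ex s).natAbs) + 1)
  have hfact : Fact p.Prime := ⟨hp2⟩
  have hexp : ∀ s, s < k → ((ex s : ℤ) : ZMod p) ≠ 0 := by
    intro s hs h0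
    rw [ZMod.intCast_zmod_eq_zero_iff_dvd] at h0
    have h1 : (ex s).natAbs ≤ ∑ s ∈ Finset.range k, (ex s).natAbs :=
      Finset.single_le_sum (f := fun s => (ex s).natAbs) (fun _ _ => Nat.zero_le _)
        (Finset.mem_range.mpr hs)
    have h2 := Int.le_of_dvd (a := (p : ℤ)) (b := |ex s|) (abs_pos.mpr (hex s hs)) ((dvd_abs _ _).mpr h0)
    have h3 : ((ex s).natAbs : ℤ) = |ex s| := Int.natCast_natAbs _
    omega
  let G := (Matrix (Fin (k + 1)) (Fin (k + 1)) (ZMod p))ˣ
  let x : ℕ → G := X (p := p) hidx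
  have hBfin : Finite (BB (p := p) hidx) := inferInstance
  refine ⟨p, hfact, BB (p := p) hidx, inferInstance, hBfin,
    fun i => ⟨x i, Subgroup.subset_closure ⟨i, rfl⟩⟩, BB_isPGroup hidx, ?_⟩
  intro hcon
  have h1 : FreeGroup.lift x (sylProd l) = 1 := by
    have h2 := congrArg (Subgroup.subtype _) hcon
    rw [map_lift, map_one] at h2
    exact h2
  -- partial products
  let P : ℕ → G := fun t => ((l.take t).map fun a => x a.1 ^ a.2).prod
  have hPk : P k = FreeGroup.lift x (sylProd l) := by
    simp only [P, sylProd, hk, List.take_length, map_list_prod, List.map_map]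
    congr 1
    refine List.map_congr_left (fun a _ => ?_)
    simp
  have hPsucc : ∀ t, t < k → P (t + 1) = P t * x (idx t) ^ (ex t) := by
    intro t ht
    simp only [P]
    rw [List.take_succ_eq_append_getElem (by rw [← hk]; exact ht), List.map_append, List.prod_append]
    simp only [List.map_cons, List.map_nil, List.prod_cons, List.prod_nil, mul_one]
    have h3 : l.getD t (0, 0) = l[t]'(by rw [← hk]; exact ht) := by
      rw [List.getD_eq_getElem]
    simp only [idx, ex]
    rw [h3]
  have hentry : ∀ t, t ≤ k → (∀ b : Fin (k + 1), b.1 = t →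
      (P t).val 0 b = ∏ s ∈ Finset.range t, ((ex s : ℤ) : ZMod p)) ∧
      (∀ b : Fin (k + 1), t < b.1 → (P t).val 0 b = 0) := by
    intro t
    induction t with
    | zero =>
      intro _
      have hP0 : P 0 = 1 := by simp [P]
      refine ⟨?_, ?_⟩
      · intro b hb
        have : b = 0 := Fin.ext hb
        rw [this, hP0]
        simp
      · intro b hb
        rw [hP0, Units.val_one, Matrix.one_apply_ne]
        intro h
        rw [← h] at hb
        simp at hb
    | succ t ih =>
      intro ht
      obtain ⟨ih1, ih2⟩ := ih (by omega)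
      have hstep : ∀ b : Fin (k + 1), (P (t + 1)).val 0 b =
          (P t).val 0 b + ((ex t : ℤ) : ZMod p) * ∑ a, (P t).val 0 a * Nmat p k idx (idx t) a b := by
        intro b
        rw [hPsucc t (by omega), Units.val_mul]
        have h4 : ((x (idx t) ^ (ex t) : G)).val = 1 + ((ex t : ℤ) : ZMod p) • Nmat p k idx (idx t) :=
          X_zpow hidx (idx t) (ex t)
        rw [h4, mul_add, mul_one, Matrix.add_apply, mul_smul_comm, Matrix.smul_apply, Matrix.mul_apply,
          smul_eq_mul]
      refine ⟨?_, ?_⟩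
      · intro b hb
        rw [hstep, ih2 b (by omega), zero_add, Finset.prod_range_succ, mul_comm]
        congr 1
        let a0 : Fin (k + 1) := ⟨t, by omega⟩
        rw [Finset.sum_eq_single a0]
        · have h5 : Nmat p k idx (idx t) a0 b = 1 := by
            simp only [Nmat]
            rw [if_pos]
            exact ⟨hb, rfl⟩
          rw [h5, mul_one]
          exact ih1 a0 rfl
        · intro a _ ha
          have h5 : Nmat p k idx (idx t) a b = 0 := by
            simp only [Nmat]
            rw [if_neg]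
            rintro ⟨h6, -⟩
            apply ha
            apply Fin.ext
            show a.1 = t
            omega
          rw [h5, mul_zero]
        · intro h; exact absurd (Finset.mem_univ _) h
      · intro b hb
        rw [hstep, ih2 b (by omega), zero_add]
        have h6 : ∑ a, (P t).val 0 a * Nmat p k idx (idx t) a b = 0 := by
          refine Finset.sum_eq_zero (fun a _ => ?_)
          by_cases h7 : b.1 = a.1 + 1 ∧ idx a.1 = idx t
          · rw [ih2 a (by omega), zero_mul]
          · have h5 : Nmat p k idx (idx t) a b = 0 := by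
              simp only [Nmat]
              rw [if_neg h7]
            rw [h5, mul_zero]
        rw [h6, mul_zero]
  have hlast := (hentry k le_rfl).1 (Fin.last k) rfl
  rw [hPk, h1, Units.val_one, Matrix.one_apply_ne] at hlast
  · have h8 : ∏ s ∈ Finset.range k, ((ex s : ℤ) : ZMod p) ≠ 0 := by
      rw [Finset.prod_ne_zero_iff]
      intro s hs
      exact hexp s (Finset.mem_range.mp hs)
    exact h8 hlast.symm
  · intro h9
    have := congrArg Fin.val h9
    simp at this
    omega

end Pool.Agent.Lib.MP_0a5b83_al
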