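import Pool.Agent.Lib.MP_0a5b83_al.Basic

/-!
Every countable group embeds in a group generated by two elements (Higman, Neumann and Neumann);
the proof below uses permutations of `ℤ × ℤ × G`.
-/

set_option autoImplicit false

namespace Pool.Agent.Lib.MP_0a5b83_al

namespace TwoGen

variable {G : Type} [Group G] (g : ℕ → G)

/-- The set on which everything acts. -/
abbrev Om (G : Type) : Type := ℤ × ℤ × G

/-- The shift of the first coordinate. -/
def S : Equiv.Perm (Om G) where
  toFun x := (x.1 + 1, x.2.1, x.2.2)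
  invFun x := (x.1 - 1, x.2.1, x.2.2)
  left_inv x := by ext <;> simp
  right_inv x := by ext <;> simp

/-- The element of the wreath product acting at level `a`: at level `0` it is the shift of the second
coordinate, at level `2 i + 1` it is left multiplication by `g i` where the second coordinate is
nonnegative, and it is trivial at the other levels. -/
def hfun (x : Om G) : Om G :=
  if x.1 = 0 then (x.1, x.2.1 + 1, x.2.2)
  else if 0 < x.1 ∧ x.1 % 2 = 1 ∧ 0 ≤ x.2.1 then (x.1, x.2.1, g ((x.1 / 2).toNat) * x.2.2)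
  else x

/-- The inverse of `hfun`. -/
def hinv (x : Om G) : Om G :=
  if x.1 = 0 then (x.1, x.2.1 - 1, x.2.2)
  else if 0 < x.1 ∧ x.1 % 2 = 1 ∧ 0 ≤ x.2.1 then (x.1, x.2.1, (g ((x.1 / 2).toNat))⁻¹ * x.2.2)
  else x

/-- The second generator. -/
def h : Equiv.Perm (Om G) where
  toFun := hfun g
  invFun := hinv g
  left_inv x := by
    obtain ⟨a, b, y⟩ := x
    simp only [hfun, hinv]
    by_cases h0 : a = 0
    · simp [h0]
    · by_cases h1 : 0 < a ∧ a % 2 = 1 ∧ 0 ≤ b
      · simp [h0, h1]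
      · simp [h0, h1]
  right_inv x := by
    obtain ⟨a, b, y⟩ := x
    simp only [hfun, hinv]
    by_cases h0 : a = 0
    · simp [h0]
    · by_cases h1 : 0 < a ∧ a % 2 = 1 ∧ 0 ≤ b
      · simp [h0, h1]
      · simp [h0, h1]

/-- The embedding of `G`: left multiplication at the point `(0, 0)`, trivial elsewhere. -/
def psiFun (y : G) (x : Om G) : Om G :=
  if x.1 = 0 ∧ x.2.1 = 0 then (x.1, x.2.1, y * x.2.2) else x

/-- The embedding of `G` in the group of permutations. -/
def psi : G →* Equiv.Perm (Om G) where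
  toFun y :=
    { toFun := psiFun y
      invFun := psiFun y⁻¹
      left_inv := by
        rintro ⟨a, b, z⟩
        simp only [psiFun]
        by_cases h0 : a = 0 ∧ b = 0 <;> simp [h0]
      right_inv := by
        rintro ⟨a, b, z⟩
        simp only [psiFun]
        by_cases h0 : a = 0 ∧ b = 0 <;> simp [h0] }
  map_one' := by
    ext ⟨a, b, z⟩ <;> simp only [psiFun, Equiv.coe_fn_mk, Equiv.Perm.coe_one, id] <;>
    by_cases h0 : a = 0 ∧ b = 0 <;> simp [h0]
  map_mul' y y' := by
    ext ⟨a, b, z⟩ <;> simp only [psiFun, Equiv.coe_fn_mk, Equiv.Perm.coe_mul, Function.comp] <;>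
    by_cases h0 : a = 0 ∧ b = 0 <;> simp [h0, mul_assoc]

theorem psi_injective : Function.Injective (psi : G →* Equiv.Perm (Om G)) := by
  intro y y' hyy
  have h1 := congrArg (fun σ : Equiv.Perm (Om G) => σ (0, 0, 1)) hyy
  simp only [psi, psiFun, MonoidHom.coe_mk, OneHom.coe_mk, Equiv.coe_fn_mk, and_self, if_true,
    mul_one, Prod.mk.injEq, true_and] at h1
  exact h1

theorem S_zpow (k : ℤ) (x : Om G) : (S ^ k : Equiv.Perm (Om G)) x = (x.1 + k, x.2.1, x.2.2) := by
  induction k with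
  | zero => simp
  | succ n ih =>
    rw [zpow_add_one, Equiv.Perm.mul_apply]
    have h2 : ∀ y : Om G, (S ^ (n : ℤ) : Equiv.Perm (Om G)) y = (y.1 + n, y.2.1, y.2.2) := by
      intro y
      have h3 : ∀ (m : ℕ) (y : Om G), (S ^ (m : ℤ) : Equiv.Perm (Om G)) y = (y.1 + m, y.2.1, y.2.2) := by
        intro m
        induction m with
        | zero => intro y; simp
        | succ m ihm =>
          intro y
          rw [Nat.cast_succ, zpow_add_one, Equiv.Perm.mul_apply, ihm]
          simp [S]; ring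
      exact h3 n y
    rw [h2]
    simp [S]; ring
  | pred n ih =>
    have h3 : ∀ (m : ℕ) (y : Om G), (S ^ (-(m : ℤ)) : Equiv.Perm (Om G)) y = (y.1 - m, y.2.1, y.2.2) := by
      intro m
      induction m with
      | zero => intro y; simp
      | succ m ihm =>
        intro y
        have : (-((m + 1 : ℕ) : ℤ)) = -(m : ℤ) - 1 := by push_cast; ring
        rw [this, zpow_sub_one, Equiv.Perm.mul_apply, ihm]
        simp [S, Equiv.Perm.inv_def]; ring
    have : (-(n : ℤ) - 1) = -((n + 1 : ℕ) : ℤ) := by push_cast; ring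
    rw [this, h3]
    push_cast
    simp only [Prod.mk.injEq, and_self, and_true]
    ring

/-- The conjugate of `h` by a power of the shift: it acts at level `a` as `h` acts at level `a + k`. -/
def hk (k : ℤ) : Equiv.Perm (Om G) := S ^ (-k) * h g * S ^ k

theorem hk_apply (k : ℤ) (x : Om G) :
    hk g k x = ((hfun g (x.1 + k, x.2.1, x.2.2)).1 - k, (hfun g (x.1 + k, x.2.1, x.2.2)).2) := by
  simp only [hk, Equiv.Perm.mul_apply, S_zpow]
  simp only [h, Equiv.coe_fn_mk]
  ext <;> simp [sub_eq_add_neg]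

theorem hk_inv_apply (k : ℤ) (x : Om G) :
    (hk g k)⁻¹ x = ((hinv g (x.1 + k, x.2.1, x.2.2)).1 - k, (hinv g (x.1 + k, x.2.1, x.2.2)).2) := by
  have h1 : (hk g k)⁻¹ = S ^ (-k) * (h g)⁻¹ * S ^ k := by
    simp only [hk]; group
  rw [h1]
  simp only [Equiv.Perm.mul_apply, S_zpow]
  simp only [h, Equiv.Perm.inv_def, Equiv.symm, Equiv.coe_fn_mk]
  ext <;> simp [sub_eq_add_neg]

theorem hfun_fst (x : Om G) : (hfun g x).1 = x.1 := by
  simp only [hfun]
  split_ifs <;> rfl

theorem hinv_fst (x : Om G) : (hinv g x).1 = x.1 := by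
  simp only [hinv]
  split_ifs <;> rfl

theorem hk_fst (k : ℤ) (x : Om G) : (hk g k x).1 = x.1 := by
  rw [hk_apply, hfun_fst]; simp

theorem hk_inv_fst (k : ℤ) (x : Om G) : ((hk g k)⁻¹ x).1 = x.1 := by
  rw [hk_inv_apply, hinv_fst]; simp

theorem hk_triv {k : ℤ} {x : Om G} (h0 : x.1 + k ≠ 0) (h1 : ¬ (0 < x.1 + k ∧ (x.1 + k) % 2 = 1)) :
    hk g k x = x := by
  rw [hk_apply]
  have h2 : ¬ (0 < x.1 + k ∧ (x.1 + k) % 2 = 1 ∧ 0 ≤ x.2.1) := fun h => h1 ⟨h.1, h.2.1⟩
  simp only [hfun, if_neg h0, if_neg h2]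
  ext <;> simp

theorem hk_inv_triv {k : ℤ} {x : Om G} (h0 : x.1 + k ≠ 0)
    (h1 : ¬ (0 < x.1 + k ∧ (x.1 + k) % 2 = 1)) : (hk g k)⁻¹ x = x := by
  rw [Equiv.Perm.inv_eq_iff_eq]
  exact (hk_triv g h0 h1).symm

theorem commutator_eq (i : ℕ) :
    hk g 0 * hk g (2 * i + 1) * (hk g 0)⁻¹ * (hk g (2 * i + 1))⁻¹ = psi (g i)⁻¹ := by
  ext1 x
  simp only [Equiv.Perm.mul_apply]
  by_cases ha : x.1 = 0
  · obtain ⟨a, b, y⟩ := x
    simp only at ha
    subst ha
    have hm0 : (0 : ℤ) + (2 * i + 1) ≠ 0 := by omega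
    have hm1 : (0 : ℤ) < 0 + (2 * i + 1) := by omega
    have hm2 : ((0 : ℤ) + (2 * i + 1)) % 2 = 1 := by omega
    have hm3 : (((0 : ℤ) + (2 * i + 1)) / 2).toNat = i := by omega
    -- the first factor
    have e1 : (hk g (2 * i + 1))⁻¹ (0, b, y) = (0, b, if 0 ≤ b then (g i)⁻¹ * y else y) := by
      rw [hk_inv_apply]
      simp only [hinv, if_neg hm0]
      by_cases hb : 0 ≤ b
      · simp only [hm1, hm2, hb, and_self, if_true, hm3]
        ext <;> simp
      · simp only [hb, and_false, if_false]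
        ext <;> simp
    have e2 : ∀ z : G, (hk g 0)⁻¹ (0, b, z) = (0, b - 1, z) := by
      intro z
      rw [hk_inv_apply]
      simp [hinv]
    have e3 : ∀ z : G, hk g (2 * i + 1) (0, b - 1, z) = (0, b - 1, if 0 ≤ b - 1 then g i * z else z) := by
      intro z
      rw [hk_apply]
      simp only [hfun, if_neg hm0]
      by_cases hb : 0 ≤ b - 1
      · simp only [hm1, hm2, hb, and_self, if_true, hm3]
        ext <;> simp
      · simp only [hb, and_false, if_false]
        ext <;> simp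
    have e4 : ∀ z : G, hk g 0 (0, b - 1, z) = (0, b, z) := by
      intro z
      rw [hk_apply]
      simp [hfun]
    rw [e1, e2, e3, e4]
    simp only [psi, psiFun, MonoidHom.coe_mk, OneHom.coe_mk, Equiv.coe_fn_mk, true_and]
    by_cases hb : 0 ≤ b - 1
    · have hb' : 0 ≤ b := by omega
      have hb0 : b ≠ 0 := by omega
      rw [if_pos hb, if_pos hb', if_neg hb0, mul_inv_cancel_left]
    · by_cases hb' : 0 ≤ b
      · have hb0 : b = 0 := by omega
        simp [hb0]
      · have hb0 : b ≠ 0 := by omega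
        rw [if_neg hb, if_neg hb', if_neg hb0]
  · have hpsi : (psi (g i)⁻¹ : Equiv.Perm (Om G)) x = x := by
      simp [psi, psiFun, ha]
    rw [hpsi]
    by_cases hodd : 0 < x.1 ∧ x.1 % 2 = 1
    · have hm0 : x.1 + (2 * i + 1) ≠ 0 := by omega
      have hm1 : ¬ (0 < x.1 + (2 * i + 1) ∧ (x.1 + (2 * i + 1)) % 2 = 1) := by omega
      rw [hk_inv_triv g hm0 hm1]
      have hx : ((hk g 0)⁻¹ x).1 = x.1 := hk_inv_fst g 0 x
      rw [hk_triv g (x := (hk g 0)⁻¹ x) (by rw [hx]; exact hm0) (by rw [hx]; exact hm1)]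
      simp
    · have hx : ((hk g (2 * i + 1))⁻¹ x).1 = x.1 := hk_inv_fst g _ x
      rw [hk_inv_triv g (x := (hk g (2 * i + 1))⁻¹ x) (by rw [hx, add_zero]; exact ha)
        (by rw [hx, add_zero]; exact hodd)]
      have hcan : ∀ (σ : Equiv.Perm (Om G)) (z : Om G), σ (σ⁻¹ z) = z := fun σ z => by simp
      rw [hcan]
      exact hk_triv g (by rw [add_zero]; exact ha) (by rw [add_zero]; exact hodd)

end TwoGen

/-- Every countable group embeds in a group generated by two elements. -/
theorem exists_two_generated (G : Type) [Group G] [Countable G] :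
    ∃ (H : Type) (_ : Group H) (s : Fin 2 → H) (ψ : G →* H),
      Subgroup.closure (Set.range s) = ⊤ ∧ Function.Injective ψ := by
  classical
  obtain ⟨g, hg⟩ := exists_surjective_nat G
  let S : Equiv.Perm (TwoGen.Om G) := TwoGen.S
  let h : Equiv.Perm (TwoGen.Om G) := TwoGen.h g
  let K : Subgroup (Equiv.Perm (TwoGen.Om G)) := Subgroup.closure {S, h}
  have hS : S ∈ K := Subgroup.subset_closure (by simp)
  have hh : h ∈ K := Subgroup.subset_closure (by simp)
  have hhk : ∀ k : ℤ, TwoGen.hk g k ∈ K := fun k =>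
    K.mul_mem (K.mul_mem (K.zpow_mem hS _) hh) (K.zpow_mem hS _)
  have hpsi : ∀ y : G, TwoGen.psi y ∈ K := by
    intro y
    obtain ⟨i, hi⟩ := hg y
    have h1 := TwoGen.commutator_eq g i
    rw [map_inv, hi] at h1
    have h2 : (TwoGen.psi y)⁻¹ ∈ K := by
      rw [← h1]
      exact K.mul_mem (K.mul_mem (K.mul_mem (hhk _) (hhk _)) (K.inv_mem (hhk _))) (K.inv_mem (hhk _))
    exact K.inv_mem_iff.mp h2
  refine ⟨K, inferInstance, ![⟨S, hS⟩, ⟨h, hh⟩], TwoGen.psi.codRestrict K hpsi, ?_, ?_⟩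
  · rw [← Subgroup.map_subtype_inj, MonoidHom.map_closure, ← Set.range_comp]
    have hr : Set.range (⇑K.subtype ∘ ![(⟨S, hS⟩ : K), ⟨h, hh⟩]) = {S, h} := by
      ext x
      simp only [Set.mem_range, Function.comp, Set.mem_insert_iff, Set.mem_singleton_iff]
      constructor
      · rintro ⟨i, rfl⟩
        fin_cases i
        · left; rfl
        · right; rfl
      · rintro (rfl | rfl)
        · exact ⟨0, rfl⟩
        · exact ⟨1, rfl⟩
    rw [hr, ← MonoidHom.range_eq_map, Subgroup.range_subtype]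
  · intro a b hab
    apply TwoGen.psi_injective
    exact congrArg Subtype.val hab

end Pool.Agent.Lib.MP_0a5b83_al
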